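import Pool.Agent.MP_94d996_lc.H23.Sim

set_option autoImplicit false

/-! If the machine accepts, the simulation game is not mortal. -/

namespace Pool.Agent.MP_94d996_lc.H23

open Relation

variable {M : Mach} {D : ℕ} {n K R : ℤ}

/-- accepting runs with a given number of edges -/
def Run (M : Mach) : ℕ → M.L × Val → Prop
  | 0, x => x.1 = M.h
  | j + 1, x => ∃ y, M.Step x y ∧ Run M j y

theorem run_of_reach {x : M.L × Val} {b : Val} (h : M.Reach x (M.h, b)) : ∃ j, Run M j x := by
  induction h using ReflTransGen.head_induction_on with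
  | refl => exact ⟨0, rfl⟩
  | head hs _ ih =>
    obtain ⟨j, hj⟩ := ih
    exact ⟨j + 1, _, hs, hj⟩

theorem triv (hn : 0 ≤ n) (hK : 0 ≤ K) {σ : Bool} : ∀ (t : ℕ) (p : Pos D),
    (∀ x, |p.1 x| + (K + n + 1) * t ≤ R) → |p.2.1| ≤ R → |p.2.2| + (K + n + 1) * t ≤ R →
    Wn M n K (box D R) t (.top σ) p ∧ Wn M n K (box D R) t (.ini σ) p ∧
      ∀ fr d, Wn M n K (box D R) t (.cl σ fr d) p := by
  intro t
  induction t with
  | zero =>
    intro p h1 h2 h3
    have : p ∈ box D R := ⟨fun x => by simpa using h1 x, h2, by simpa using h3⟩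
    exact ⟨this, this, fun _ _ => this⟩
  | succ t ih =>
    intro p h1 h2 h3
    push_cast at h1 h3
    have mvb : ∀ (v : Rg D → ℤ) (x : ℤ), (∀ y, |v y| ≤ K + n + 1) → 0 ≤ x → x ≤ K →
        Wn M n K (box D R) t (.top σ) (p + mv σ v 0 x) ∧
        Wn M n K (box D R) t (.ini σ) (p + mv σ v 0 x) ∧
        ∀ fr d, Wn M n K (box D R) t (.cl σ fr d) (p + mv σ v 0 x) := by
      intro v x hv hx0 hx
      refine ih _ (fun y => ?_) (by simpa only [mv_21, add_zero] using h2) ?_
      · rw [mv_1]
        have e1 := abs_add_le (p.1 y) (v y)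
        have e2 := hv y
        have e3 := h1 y
        linarith
      · rw [mv_22]
        have e1 := abs_add_le p.2.2 (-sg σ * (1 + x))
        have e2 : |(-sg σ * (1 + x))| = 1 + x := by
          cases σ <;> simp [sg, abs_of_nonneg (show 0 ≤ 1 + x by omega)]
          rw [abs_of_nonpos (by omega)]; ring
        linarith
    have d0 := mvb 0 0 (fun y => by simp; omega) le_rfl hK
    have d1 := mvb (g0 D + n • g1 D) K (fun y => by
      rcases y with r | c
      · simp only [Pi.add_apply, Pi.smul_apply, g0, g1, smul_eq_mul]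
        split_ifs <;> simp [abs_of_nonneg hn] <;> omega
      · simp only [Pi.add_apply, Pi.smul_apply, g0, g1, smul_eq_mul]
        split_ifs <;> simp <;> omega) hK le_rfl
    exact ⟨W_top.2 ⟨d0.1, d0.2.1⟩, W_ini.2 ⟨d0.2.2 _ _, Or.inl d1.2.1⟩,
      fun fr d => W_cl.2 (Or.inl d0.1)⟩

def TopOK (K m : ℤ) (σ : Bool) (t : ℕ) (p : Pos D) : Prop :=
  (∀ x, p.1 x = 0) ∧ 0 ≤ p.2.1 ∧ p.2.1 ≤ m ∧ 0 ≤ U σ t p ∧ U σ t p < K

def nu (K : ℤ) (σ d : Bool) (t : ℕ) (p : Pos D) : ℤ := if d then U σ t p else K - 1 - U σ t p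

theorem nu_drift (σ d : Bool) (t : ℕ) (p : Pos D) (v : Rg D → ℤ) :
    nu K σ d t (p + mv σ v 0 0) = nu K σ d (t + 1) p := by
  simp [nu]

theorem nu_clock (σ d : Bool) (t : ℕ) (p : Pos D) (v : Rg D → ℤ) :
    nu K σ d t (p + mv σ v 0 (K * -sg d)) = nu K σ d (t + 1) p - K := by
  cases d <;> simp [nu, sg] <;> ring

theorem mass_nonneg {p : Pos D} (h : ∀ x, 0 ≤ p.1 x) : 0 ≤ mass p :=
  Finset.sum_nonneg (fun x _ => h x)

theorem cleanOK (hK : 1 ≤ K) {m : ℤ} {t0 : ℕ} {B : Set (Pos D)}
    (H : ∀ t, t < t0 → ∀ σ p, TopOK K m σ t p → Wn M n K B t (.top σ) p)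
    {σ d : Bool} {fr : Option (Rg D)} : ∀ (t : ℕ), t ≤ t0 → ∀ (p : Pos D),
    (∀ x, 0 ≤ p.1 x) → (∀ x, fr = some x → p.1 x = 0) → 0 ≤ p.2.1 → p.2.1 ≤ m →
    0 ≤ nu K σ d t p →
    (2 * (K * mass p + nu K σ d t p) + K ≤ K * t → Wn M n K B t (.cl σ fr d) p) ∧
    (K ≤ K * mass p + nu K σ d t p → 2 * (K * mass p + nu K σ d t p) ≤ K * t →
      Wn M n K B t (.dl σ fr d) p) := by
  intro t
  induction t with
  | zero =>
    intro _ p h1 _ _ _ h5
    have h6 : 0 ≤ K * mass p := mul_nonneg (by omega) (mass_nonneg h1)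
    simp only [Nat.cast_zero, mul_zero]
    exact ⟨fun h => by omega, fun h h' => by omega⟩
  | succ t ih =>
    intro ht p h1 h2 h3 h4 h5
    have h6 : 0 ≤ K * mass p := mul_nonneg (by omega) (mass_nonneg h1)
    have stp : K ≤ K * mass p + nu K σ d (t + 1) p →
        2 * (K * mass p + nu K σ d (t + 1) p) ≤ K * ((t + 1 : ℕ) : ℤ) →
        ∃ j, okj D fr j ∧ Wn M n K B t (.cl σ fr d) (p + mv σ (cv j) 0 (K * cx j d)) := by
      intro g1 g2
      push_cast at g2
      by_cases hx : ∃ x, 0 < p.1 x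
      · obtain ⟨x, hx⟩ := hx
        refine ⟨some x, fun y hy hf => ?_, ?_⟩
        · have e : x = y := Option.some.inj hy
          have := h2 y hf
          rw [e] at hx
          omega
        · simp only [cx, mul_zero]
          refine (ih (by omega) _ (fun y => ?_) (fun y hy => ?_) (by simpa only [mv_21, add_zero])
            (by simpa only [mv_21, add_zero]) (by rwa [nu_drift])).1 ?_
          · have := h1 y
            simp only [mv_1, cv]
            split_ifs with e
            · subst e; omega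
            · omega
          · have := h2 y hy
            simp only [mv_1, cv]
            split_ifs with e
            · subst e; omega
            · omega
          · rw [nu_drift, mass_mv, sum_cv_some]
            linarith
      · have hz : ∀ x, p.1 x = 0 := fun x => by
          have := h1 x
          have : ¬ 0 < p.1 x := fun h => hx ⟨x, h⟩
          omega
        have hm : mass p = 0 := Finset.sum_eq_zero (fun x _ => hz x)
        rw [hm, mul_zero] at g1 g2
        refine ⟨none, fun y hy => by simp at hy, ?_⟩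
        simp only [cx]
        refine (ih (by omega) _ (fun y => ?_) (fun y hy => ?_) (by simpa only [mv_21, add_zero])
          (by simpa only [mv_21, add_zero]) (by rw [nu_clock]; omega)).1 ?_
        · simp [cv, hz]
        · simp [cv, hz]
        · rw [nu_clock, mass_mv, sum_cv_none, hm]
          linarith
    refine ⟨fun g => ?_, fun g1 g2 => W_dl.2 (stp g1 g2)⟩
    by_cases hc : K ≤ K * mass p + nu K σ d (t + 1) p
    · obtain ⟨j, j1, j2⟩ := stp hc (by omega)
      refine W_cl.2 (Or.inr ⟨j, j1, j2, ?_⟩)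
      refine (ih (by omega) _ (by simpa only [mv_1, Pi.zero_apply, add_zero])
        (by simpa only [mv_1, Pi.zero_apply, add_zero]) (by simpa only [mv_21, add_zero])
        (by simpa only [mv_21, add_zero]) (by rwa [nu_drift])).2 ?_ ?_
      · simpa [nu_drift] using hc
      · push_cast at g
        simp only [nu_drift, mass_mv, Pi.zero_apply, Finset.sum_const_zero, add_zero]
        linarith
    · have hm : mass p = 0 := by
        have e1 := mass_nonneg h1
        by_contra e2
        have e3 : K * 1 ≤ K * mass p := mul_le_mul_of_nonneg_left (by omega) (by omega)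
        omega
      have hz : ∀ x, p.1 x = 0 := fun x =>
        (Finset.sum_eq_zero_iff_of_nonneg (fun x _ => h1 x)).1 hm x (Finset.mem_univ x)
      rw [hm, mul_zero] at hc
      refine W_cl.2 (Or.inl (H t (by omega) σ _ ⟨by simpa only [mv_1, Pi.zero_apply, add_zero],
        by simpa only [mv_21, add_zero], by simpa only [mv_21, add_zero], ?_, ?_⟩))
      · rw [U_mv, add_zero]
        cases d <;> simp [nu] at h5 hc <;> omega
      · rw [U_mv, add_zero]
        cases d <;> simp [nu] at h5 hc <;> omega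

/-- budget invariant of the computing phase; `g` steps remain before the flip -/
def Good (K c m : ℤ) (σ : Bool) (t : ℕ) (p : Pos D) (g : ℤ) : Prop :=
  0 ≤ U σ t p ∧ (∀ x, 0 ≤ p.1 x) ∧ 0 ≤ p.2.1 ∧ p.2.1 ≤ m ∧
    K * (2 * c + 3) * g + 2 * (K + 2) * (m + 1) ≤ K * t - 2 * K - 2 * (K * mass p + U σ t p) ∧
    K - (K + 2) * (m + 1) ≤ 2 * (t - g) - (U σ t p + K * g) ∧
    2 * (t - g) - (U σ t p + K * g) < K

theorem Good.step (hK : 1 ≤ K) {c m g : ℤ} {σ : Bool} {t : ℕ} {p : Pos D}
    (h : Good K c m σ (t + 1) p (g + 1)) (v : Rg D → ℤ) (w : ℤ) (hv : ∑ y, v y ≤ c)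
    (h1 : ∀ x, 0 ≤ p.1 x + v x) (h2 : 0 ≤ p.2.1 + w) (h3 : p.2.1 + w ≤ m) :
    Good K c m σ t (p + mv σ v w K) g := by
  obtain ⟨g1, -, -, -, g5, g6, g7⟩ := h
  have e : K * ∑ y, v y ≤ K * c := mul_le_mul_of_nonneg_left hv (by omega)
  push_cast at g5 g6 g7
  refine ⟨by rw [U_mv]; omega, h1, h2, h3, ?_, ?_, ?_⟩
  · rw [U_mv, mass_mv]
    linarith
  · rw [U_mv]
    linarith
  · rw [U_mv]
    linarith

theorem Good.pos (hK : 1 ≤ K) {c m g : ℤ} (hc : 0 ≤ c) (hg : 0 ≤ g) {σ : Bool} {t : ℕ}
    {p : Pos D} (h : Good K c m σ t p g) : ∃ s, t = s + 1 := by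
  obtain ⟨g1, g2, g3, g4, g5, -, -⟩ := h
  have e1 : 0 ≤ K * (2 * c + 3) * g := by positivity
  have e2 : 0 ≤ 2 * (K + 2) * (m + 1) := mul_nonneg (by omega) (by omega)
  have e3 : 0 ≤ K * mass p := mul_nonneg (by omega) (mass_nonneg g2)
  rcases t with _ | t
  · simp only [Nat.cast_zero, mul_zero] at g5
    omega
  · exact ⟨t, rfl⟩

section strat

variable {m c : ℤ} {t0 : ℕ} {B : Set (Pos D)}

theorem chalOK (hK : 1 ≤ K) (hc : 0 ≤ c)
    (H : ∀ t, t < t0 → ∀ σ p, TopOK K m σ t p → Wn M n K B t (.top σ) p)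
    {σ : Bool} {fr : Option (Rg D)} {t : ℕ} (ht : t ≤ t0) {p : Pos D} {g : ℤ} (hg : 0 ≤ g)
    (h : Good K c m σ (t + 1) p g) (hf : ∀ x, fr = some x → p.1 x = 0) :
    Wn M n K B t (.cl σ fr true) (p + mv σ 0 0 0) := by
  obtain ⟨g1, g2, g3, g4, g5, -, -⟩ := h
  have e1 : 0 ≤ K * (2 * c + 3) * g := by positivity
  have e2 : 0 ≤ 2 * (K + 2) * (m + 1) := mul_nonneg (by omega) (by omega)
  refine (cleanOK hK H t ht _ (by simpa only [mv_1, Pi.zero_apply, add_zero])
    (by simpa only [mv_1, Pi.zero_apply, add_zero]) (by simpa only [mv_21, add_zero])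
    (by simpa only [mv_21, add_zero]) (by simpa [nu])).1 ?_
  push_cast at g5
  simp only [nu, if_true, U_mv, mass_mv, Pi.zero_apply, Finset.sum_const_zero, add_zero]
  linarith

theorem flipOK (hK : 1 ≤ K)
    (H : ∀ t, t < t0 → ∀ σ p, TopOK K m σ t p → Wn M n K B t (.top σ) p)
    {σ : Bool} {t : ℕ} (ht : t ≤ t0) {p : Pos D} (h : Good K c m σ (t + 1) p 0) :
    Wn M n K B t (.cl (!σ) none false) (p + mv (!σ) 0 0 0) := by
  obtain ⟨g1, g2, g3, g4, g5, g6, g7⟩ := h
  have e : nu K (!σ) false t (p + mv (!σ) 0 0 0)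
      = K - 1 - (2 * ((t + 1 : ℕ) : ℤ) - U σ (t + 1) p) := by
    rw [nu_drift]
    simp only [nu, U_not]
    simp
  simp only [mul_zero, sub_zero, add_zero, zero_add] at g5 g6 g7
  refine (cleanOK hK H t ht _ (by simpa only [mv_1, Pi.zero_apply, add_zero])
    (by simp) (by simpa only [mv_21, add_zero])
    (by simpa only [mv_21, add_zero]) (by rw [e]; omega)).1 ?_
  rw [e]
  push_cast at g5 g6 g7 ⊢
  simp only [mass_mv, Pi.zero_apply, Finset.sum_const_zero, add_zero]
  linarith

theorem sum_lv (e : M.E) (b : Bool) : ∑ y, lv M D e b y ≤ D + 1 := by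
  rw [Fintype.sum_sum_type]
  have h1 : ∑ r : Fin (D + 1), lv M D e b (.inl r) ≤ ∑ _r : Fin (D + 1), (1 : ℤ) :=
    Finset.sum_le_sum (fun r _ => (abs_le.1 (M.one e r)).2)
  have h2 : ∑ c : Bool, lv M D e b (.inr c) = 0 := by
    cases b <;> simp [lv]
  simp at h1
  rw [h2]
  simpa using h1

theorem labOK (hK : 1 ≤ K) (hc : (D : ℤ) + 1 ≤ c)
    (H : ∀ t, t < t0 → ∀ σ p, TopOK K m σ t p → Wn M n K B t (.top σ) p)
    {σ : Bool} (S : ℕ) : ∀ (j : ℕ) (l : M.L) (a : Val), Run M j (l, a) →
    ∀ (b : Bool) (t : ℕ) (p : Pos D), t ≤ t0 + 1 → (∀ r : Fin (D + 1), p.1 (.inl r) = a r * S) →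
    p.1 (.inr b) = S → p.1 (.inr (!b)) = 0 → p.2.1 + j ≤ m → Good K c m σ t p (j * (S + 2)) →
    Wn M n K B t (.lab σ l b) p := by
  have hc0 : 0 ≤ c := by omega
  intro j
  induction j with
  | zero =>
    intro l a hr b t p ht _ _ _ _ hg
    simp only [Nat.cast_zero, zero_mul] at hg
    obtain ⟨t, rfl⟩ := hg.pos hK hc0 le_rfl
    exact W_lab.2 ⟨chalOK hK hc0 H (by omega) le_rfl hg (by simp),
      Or.inl ⟨hr, flipOK hK H (by omega) hg⟩⟩
  | succ j ih =>
    rintro l a ⟨⟨l', a'⟩, ⟨e, e1, e2, e3, e4⟩, hr⟩ b t p ht p1 p2 p3 p4 hg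
    simp only at e1 e2 e3 e4
    subst e1 e2
    have lpOK : ∀ (i : ℕ), i ≤ S → ∀ (t : ℕ) (p : Pos D), t ≤ t0 + 1 →
        (∀ r : Fin (D + 1), p.1 (.inl r) = a r * S + M.del e r * (S - i)) →
        p.1 (.inr b) = i → p.1 (.inr (!b)) = S - i → p.2.1 + j ≤ m →
        Good K c m σ t p (j * (S + 2) + i + 1) → Wn M n K B t (.lp σ e b) p := by
      intro i
      induction i with
      | zero =>
        intro _ t p ht p1 p2 p3 p4 hg
        simp only [Nat.cast_zero, add_zero, sub_zero] at p1 p2 p3 hg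
        obtain ⟨t, rfl⟩ := hg.pos hK hc0 (by positivity)
        refine W_lp.2 ⟨chalOK hK hc0 H (by omega) (by positivity) hg (by simp), Or.inr ⟨?_,
          chalOK hK hc0 H (by omega) (by positivity) hg (by simpa using p2)⟩⟩
        refine ih _ a' hr (!b) t _ (by omega) (fun r => ?_) (by simpa using p3)
          (by simpa using p2) (by simpa only [mv_21, add_zero])
          (hg.step hK 0 0 (by simpa) (by simpa only [Pi.zero_apply, add_zero] using hg.2.1)
            (by simpa using hg.2.2.1) (by simpa using hg.2.2.2.1))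
        rw [mv_1, p1, e3]
        simp only [Pi.zero_apply]
        ring
      | succ i ihi =>
        intro hi t p ht p1 p2 p3 p4 hg
        push_cast at p1 p2 p3 hg
        rw [← add_assoc] at hg
        obtain ⟨t, rfl⟩ := hg.pos hK hc0 (by positivity)
        refine W_lp.2 ⟨chalOK hK hc0 H (by omega) (by positivity) hg (by simp), Or.inl ?_⟩
        have f2 : lv M D e b (.inr b) = -1 := by simp [lv]
        have f3 : lv M D e b (.inr (!b)) = 1 := by simp [lv]
        have f4 : ∀ r : Fin (D + 1), lv M D e b (.inl r) = M.del e r := fun r => rfl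
        have hiS : (i : ℤ) + 1 ≤ S := by exact_mod_cast hi
        refine ihi (by omega) t _ (by omega) (fun r => ?_) (by rw [mv_1, p2, f2]; ring)
          (by rw [mv_1, p3, f3]; ring) (by simpa only [mv_21, add_zero])
          (hg.step hK _ 0 ((sum_lv e b).trans hc) ?_
            (by simpa using hg.2.2.1) (by simpa using hg.2.2.2.1))
        · rw [mv_1, p1, f4]
          ring
        · rintro (r | c')
          · rw [p1, f4]
            have k1 : (a r : ℤ) * S + M.del e r * (S - (i + 1)) + M.del e r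
                = a r * i + a' r * (S - i) := by
              rw [e3]; ring
            rw [k1]
            have k2 : (0 : ℤ) ≤ (S : ℤ) - i := by omega
            positivity
          · by_cases hcb : c' = b
            · rw [hcb, p2, f2]; omega
            · have : c' = !b := by cases b <;> cases c' <;> simp_all
              rw [this, p3, f3]; omega
    have hg' : Good K c m σ t p (j * (S + 2) + S + 1 + 1) := by
      convert hg using 1
      push_cast
      ring
    obtain ⟨t, rfl⟩ := hg'.pos hK hc0 (by positivity)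
    push_cast at p4
    have hj : (0 : ℤ) ≤ j := by positivity
    refine W_lab.2 ⟨chalOK hK hc0 H (by omega) (by positivity) hg' (by simp),
      Or.inr ⟨e, rfl, ?_, fun r hr => chalOK hK hc0 H (by omega) (by positivity) hg' ?_⟩⟩
    · refine lpOK S le_rfl t _ (by omega) (fun r => by simpa using p1 r) (by simpa using p2)
        (by simpa using p3) (by rw [mv_21]; omega)
        (hg'.step hK 0 1 (by simpa) (by simpa only [Pi.zero_apply, add_zero] using hg'.2.1)
          (by have := hg'.2.2.1; omega) (by omega))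
    · intro x hx
      have : Sum.inl r = x := Option.some.inj hx
      subst this
      rw [p1, e4 r hr]
      simp

theorem sum_g : ∑ y, (g0 D + n • g1 D) y = n + 1 := by
  rw [Fintype.sum_sum_type]
  simp [g0, g1]

theorem iniOK (N : ℕ) (hK : 1 ≤ K) (hc : (D : ℤ) + 1 + N ≤ c) {j : ℕ}
    (H : ∀ t, t < t0 → ∀ σ p, TopOK K j σ t p → Wn M N K B t (.top σ) p)
    (hr : Run M j (M.s, inp N)) {σ : Bool} (S : ℕ) : ∀ (u : ℕ) (t : ℕ) (p : Pos D), t ≤ t0 + 1 →
    (∀ x, p.1 x = 0) → p.2.1 = u → Good K c j σ t p (j * (S + 2) + S + 1 + u) →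
    Wn M N K B t (.ini σ) p := by
  have hN : (0 : ℤ) ≤ N := by positivity
  have hc0 : 0 ≤ c := by omega
  have grow : ∀ (i : ℕ), i ≤ S → ∀ (t : ℕ) (p : Pos D), t ≤ t0 + 1 →
      (∀ r : Fin (D + 1), p.1 (.inl r) = inp N r * (S - i)) → p.1 (.inr false) = S - i →
      p.1 (.inr true) = 0 → p.2.1 = 0 → Good K c j σ t p (j * (S + 2) + i + 1) →
      Wn M N K B t (.ini σ) p := by
    intro i
    induction i with
    | zero =>
      intro _ t p ht p1 p2 p3 p4 hg
      simp only [Nat.cast_zero, add_zero, sub_zero] at p1 p2 hg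
      obtain ⟨t, rfl⟩ := hg.pos hK hc0 (by positivity)
      refine W_ini.2 ⟨chalOK hK hc0 H (by omega) (by positivity) hg (by simp),
        Or.inr (Or.inr ?_)⟩
      exact labOK hK (by omega) H S j _ _ hr false t _ (by omega) (by simpa using p1)
        (by simpa using p2) (by simpa using p3) (by rw [mv_21]; omega)
        (hg.step hK 0 0 (by simpa) (by simpa only [Pi.zero_apply, add_zero] using hg.2.1)
          (by omega) (by omega))
    | succ i ihi =>
      intro hi t p ht p1 p2 p3 p4 hg
      push_cast at p1 p2 hg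
      rw [← add_assoc] at hg
      obtain ⟨t, rfl⟩ := hg.pos hK hc0 (by positivity)
      refine W_ini.2 ⟨chalOK hK hc0 H (by omega) (by positivity) hg (by simp), Or.inl ?_⟩
      have f1 : ∀ r : Fin (D + 1), (g0 D + (N : ℤ) • g1 D) (.inl r) = inp N r := by
        intro r
        by_cases hr : r = 0
        · subst hr
          simp [g0, g1, inp]
        · have hr' : (r : ℕ) ≠ 0 := fun e => hr (Fin.ext e)
          simp [g0, g1, inp, hr]
      have f2 : (g0 D + (N : ℤ) • g1 D) (.inr false) = 1 := by simp [g0, g1]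
      have f3 : (g0 D + (N : ℤ) • g1 D) (.inr true) = 0 := by simp [g0, g1]
      refine ihi (by omega) t _ (by omega) (fun r => by rw [mv_1, p1, f1]; ring)
        (by rw [mv_1, p2, f2]; ring) (by rw [mv_1, p3, f3]; ring) (by rw [mv_21]; omega)
        (hg.step hK _ 0 (by rw [sum_g]; omega) ?_ (by omega) (by omega))
      rintro (r | _ | _)
      · have := hg.2.1 (.inl r)
        rw [f1]
        positivity
      · have := hg.2.1 (.inr false)
        rw [f2]
        omega
      · rw [f3, p3]
        omega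
  intro u
  induction u with
  | zero =>
    intro t p ht p1 p2 hg
    simp only [Nat.cast_zero, add_zero] at p2 hg
    exact grow S le_rfl t p ht (by simp [p1]) (by simp [p1]) (p1 _) p2 hg
  | succ u ih =>
    intro t p ht p1 p2 hg
    push_cast at p2 hg
    rw [← add_assoc] at hg
    obtain ⟨t, rfl⟩ := hg.pos hK hc0 (by positivity)
    refine W_ini.2 ⟨chalOK hK hc0 H (by omega) (by positivity) hg (by simp),
      Or.inr (Or.inl ?_)⟩
    have := hg.2.2.2.1
    exact ih t _ (by omega) (by simpa only [mv_1, Pi.zero_apply, add_zero]) (by rw [mv_21]; omega)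
      (hg.step hK 0 (-1) (by simpa) (by simp [p1]) (by omega) (by omega))

end strat

theorem not_mortal_of_acc (N : ℕ) (hA : ∃ b, M.Reach (M.s, inp N) (M.h, b)) :
    ¬ (game M D).Mortal (vec M D N (8 * N + (8 * D + 18))) := by
  obtain ⟨b, hb⟩ := hA
  obtain ⟨m, hm⟩ := run_of_reach hb
  set K : ℤ := 8 * N + (8 * D + 18) with hKdef
  set c : ℤ := D + 1 + N with hc
  have hN : (0 : ℤ) ≤ N := by positivity
  have hD : (0 : ℤ) ≤ D := by positivity
  have hm0 : (0 : ℤ) ≤ m := by positivity
  have hK : 1 ≤ K := by omega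
  have hKc : K + 2 = 4 * (2 * c + 3) := by omega
  set T2 : ℤ := 2 * ((2 * c + 3) * (m + 1) + 4 * (m + 1) + 4) + (K + 2) * (3 * m + 1) + K
    with hT2
  have hT20 : 0 ≤ T2 := by positivity
  set R : ℤ := m + (T2 + 1) + K + (K + N + 1) * (T2 + 1) with hR
  have main : ∀ (t : ℕ) (σ : Bool) (p : Pos D), TopOK K m σ t p →
      Wn M N K (box D R) t (.top σ) p := by
    intro t
    induction t using Nat.strong_induction_on with
    | _ t ih =>
      intro σ p hp
      obtain ⟨p1, p2, p3, p4, p5⟩ := hp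
      by_cases hsmall : (t : ℤ) ≤ T2 + 1
      · have e1 : (K + N + 1) * (t : ℤ) ≤ (K + N + 1) * (T2 + 1) :=
          mul_le_mul_of_nonneg_left hsmall (by omega)
        have e0 : 0 ≤ (K + N + 1) * (T2 + 1) := mul_nonneg (by omega) (by omega)
        refine (triv hN (by omega) t p (fun x => ?_) ?_ ?_).1
        · rw [p1, abs_zero]; omega
        · rw [abs_of_nonneg p2]; omega
        · have e2 : |p.2.2| ≤ t + K := by
            unfold U at p4 p5
            rw [abs_le]
            cases σ <;> simp [sg] at p4 p5 <;> omega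
          omega
      · obtain ⟨t, rfl⟩ : ∃ s, t = s + 1 := ⟨t - 1, by omega⟩
        have ht : T2 < t := by push_cast at hsmall; omega
        refine W_top.2 ⟨ih t (by omega) σ _ ⟨by simpa only [mv_1, Pi.zero_apply, add_zero],
          by simpa only [mv_21, add_zero], by simpa only [mv_21, add_zero],
          by simpa only [U_mv, add_zero], by simpa only [U_mv, add_zero]⟩, ?_⟩
        obtain ⟨u, hu⟩ : ∃ u : ℕ, p.2.1 = u := ⟨p.2.1.toNat, by omega⟩
        set U0 := U σ (t + 1) p with hU0
        let F : ℕ → ℤ := fun S => 2 * t - U0 - (K + 2) * (m * (S + 2) + S + 1 + u)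
        have hex : ∃ S, F S < K := by
          refine ⟨2 * t, ?_⟩
          have e1 : (0 : ℤ) ≤ m * (((2 * t : ℕ) : ℤ) + 2) := by positivity
          have e2 : (m * (((2 * t : ℕ) : ℤ) + 2) + (2 * t : ℕ) + 1 + u)
              ≤ (K + 2) * (m * (((2 * t : ℕ) : ℤ) + 2) + (2 * t : ℕ) + 1 + u) :=
            le_mul_of_one_le_left (by positivity) (by omega)
          simp only [F]
          omega
        have hF0 : K ≤ F 0 := by
          have e1 : (K + 2) * (m * (((0 : ℕ) : ℤ) + 2) + (0 : ℕ) + 1 + u) ≤ (K + 2) * (3 * m + 1) :=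
            mul_le_mul_of_nonneg_left (by push_cast; omega) (by omega)
          have e2 : 0 ≤ (2 * c + 3) * (m + 1) := mul_nonneg (by omega) (by omega)
          have e3 : 0 ≤ (K + 2) * (3 * m + 1) := mul_nonneg (by omega) (by omega)
          simp only [F]
          omega
        classical
        have hS1 := Nat.find_spec hex
        obtain ⟨S, hS⟩ : ∃ S, Nat.find hex = S + 1 := by
          refine ⟨Nat.find hex - 1, ?_⟩
          have : Nat.find hex ≠ 0 := fun e => by rw [e] at hS1; omega
          omega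
        have hS2 : ¬ F S < K := Nat.find_min hex (by omega)
        rw [hS] at hS1
        have hFS : F (S + 1) = F S - (K + 2) * (m + 1) := by
          simp only [F]
          push_cast
          ring
        set g : ℤ := m * (((S + 1 : ℕ) : ℤ) + 2) + (S + 1 : ℕ) + 1 + u with hg
        have hFg : F (S + 1) = 2 * t - U0 - (K + 2) * g := rfl
        have hmass : mass p = 0 := Finset.sum_eq_zero (fun x _ => p1 x)
        refine iniOK (t0 := t) N hK (le_refl c) (fun s hs => ih s (by omega)) hm (S + 1) u t _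
          (by omega) (by simpa only [mv_1, Pi.zero_apply, add_zero]) (by rw [mv_21]; omega)
          ⟨by simpa only [U_mv, add_zero], by simp [p1], by rw [mv_21]; omega,
            by rw [mv_21]; omega, ?_, ?_, ?_⟩
        · simp only [U_mv, mass_mv, Pi.zero_apply, Finset.sum_const_zero, add_zero, hmass,
            mul_zero, zero_add]
          rw [← hg, ← hU0]
          have e1 : (K + 2) * g ≤ 2 * t + (K + 2) * (m + 1) := by omega
          rw [hKc] at e1
          have e2 : 2 * ((2 * c + 3) * g) ≤ t + 2 * ((2 * c + 3) * (m + 1)) := by linarith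
          have e3 : K * (2 * ((2 * c + 3) * g)) ≤ K * (t + 2 * ((2 * c + 3) * (m + 1))) :=
            mul_le_mul_of_nonneg_left e2 (by omega)
          have e4 : 0 ≤ (K + 2) * (3 * m + 1) := mul_nonneg (by omega) (by omega)
          have e5 : 2 * ((2 * c + 3) * (m + 1) + 4 * (m + 1) + 4) ≤ (t : ℤ) := by omega
          have e6 : K * (2 * ((2 * c + 3) * (m + 1) + 4 * (m + 1) + 4)) ≤ K * t :=
            mul_le_mul_of_nonneg_left e5 (by omega)
          have e7 : 2 * (m + 1) ≤ K * (m + 1) :=
            mul_le_mul_of_nonneg_right (by omega) (by omega)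
          linarith
        · simp only [U_mv, add_zero]
          rw [← hg, ← hU0]
          linarith
        · simp only [U_mv, add_zero]
          rw [← hg, ← hU0]
          linarith
  intro hM
  obtain ⟨T, hT⟩ := hM _ (box_finite R)
  refine hT (.top true) (0, 0, T) (main T true _ ⟨fun _ => rfl, le_rfl, hm0, ?_, ?_⟩)
  · simp [U, sg]
  · simp [U, sg]; omega

end Pool.Agent.MP_94d996_lc.H23
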