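import Mathlib

set_option autoImplicit false

namespace Pool.Agent.MP_94d996_lc.H23

/-- One time step of the system with memory `m = 1`, states `0, …, k`, neighbour vectors
`(v i, -1)` and transition function `tr`. -/
def step {d n k : ℕ} (v : Fin n → Fin d → ℤ) (tr : (Fin n → Fin (k + 1)) → Fin (k + 1))
    (x : (Fin d → ℤ) → Fin (k + 1)) : (Fin d → ℤ) → Fin (k + 1) :=
  fun p => tr (fun i => x (p + v i))

/-- The whole space-time trajectory of every initial island is an island. -/
def IsEroder {d n k : ℕ} (v : Fin n → Fin d → ℤ) (tr : (Fin n → Fin (k + 1)) → Fin (k + 1)) :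
    Prop :=
  ∀ s : (Fin d → ℤ) → Fin (k + 1), {p | s p ≠ 0}.Finite →
    {w : (Fin d → ℤ) × ℕ | (step v tr)^[w.2] s w.1 ≠ 0}.Finite

end Pool.Agent.MP_94d996_lc.H23
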