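import Pool.Agent.MP_94d996_lc.H23.Sound
import Pool.Agent.MP_94d996_lc.H23.Complete

set_option autoImplicit false

namespace Pool.Agent.MP_94d996_lc.H23

theorem primrec_sub {f g : ℕ → ℕ} (hf : Primrec f) (hg : Primrec g) :
    Primrec (fun n => (f n : ℤ) - g n) := by
  rw [← Primrec.encode_iff]
  have h1 : Primrec (fun n => if g n ≤ f n then 2 * (f n - g n) else 2 * (g n - f n - 1) + 1) :=
    Primrec.ite (Primrec.nat_le.comp hg hf)
      (Primrec.nat_mul.comp (Primrec.const 2) (Primrec.nat_sub.comp hf hg))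
      (Primrec.succ.comp (Primrec.nat_mul.comp (Primrec.const 2)
        (Primrec.nat_sub.comp (Primrec.nat_sub.comp hg hf) (Primrec.const 1))))
  refine h1.of_eq (fun n => ?_)
  have e1 : ∀ m : ℕ, Encodable.encode (m : ℤ) = 2 * m := fun m => by
    show Equiv.natSumNatEquivNat (Sum.inl m) = 2 * m
    simp
  have e2 : ∀ m : ℕ, Encodable.encode (Int.negSucc m) = 2 * m + 1 := fun m => by
    show Equiv.intEquivNat (Int.negSucc m) = 2 * m + 1
    simp [Equiv.intEquivNat, Equiv.intEquivNatSumNat, Equiv.natSumNatEquivNat]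
  split_ifs with h
  · rw [← e1]
    congr 1
    omega
  · rw [← e2]
    congr 1
    omega

theorem primrec_affine (a b : ℤ) : Primrec (fun n : ℕ => a + (n : ℤ) * b) := by
  have h := primrec_sub (f := fun n => a.toNat + n * b.toNat)
    (g := fun n => (-a).toNat + n * (-b).toNat)
    (Primrec.nat_add.comp (Primrec.const _) (Primrec.nat_mul.comp Primrec.id (Primrec.const _)))
    (Primrec.nat_add.comp (Primrec.const _) (Primrec.nat_mul.comp Primrec.id (Primrec.const _)))
  refine h.of_eq (fun n => ?_)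
  have e1 : (a.toNat : ℤ) - (-a).toNat = a := Int.toNat_sub_toNat_neg a
  have e2 : (b.toNat : ℤ) - (-b).toNat = b := Int.toNat_sub_toNat_neg b
  push_cast
  linear_combination e1 + (n : ℤ) * e2

theorem eroder_undecidable :
    ∃ (d k n : ℕ) (tr : (Fin n → Fin (k + 1)) → Fin (k + 1)), 1 ≤ d ∧ 1 ≤ k ∧ Monotone tr ∧
      ¬ ComputablePred (fun v : Fin n → Fin d → ℤ => IsEroder v tr) := by
  obtain ⟨M, hM⟩ := exists_undecidable_mach
  obtain ⟨D, hD⟩ := M.bd
  have := M.fL
  have := M.fE
  obtain ⟨k, n, tr, idx, rk, hk, hmono, hE⟩ := (game M D).exists_ca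
  let d := Module.finrank ℤ (Pos D × ℤ)
  let e : (Fin d → ℤ) ≃+ Pos D × ℤ := (Module.finBasis ℤ (Pos D × ℤ)).equivFun.symm.toAddEquiv
  let V : ℕ → Fin n → Fin d → ℤ := fun N j =>
    (game M D).vecH e rk (vec M D N (8 * N + (8 * D + 18))) (idx j).1 (idx j).2
  have hV : Primrec V := by
    refine Primrec.fin_curry.2 (Primrec₂.swap (Primrec.fin_curry₁.2 (fun j => ?_)))
    refine Primrec.fin_curry.2 (Primrec₂.swap (Primrec.fin_curry₁.2 (fun i => ?_)))
    obtain ⟨u, w, huw⟩ := vec_affine M D (8 * D + 18) (idx j).1 (idx j).2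
    refine (primrec_affine (e.symm (u, (rk ((game M D).tgt (idx j).1 (idx j).2) : ℤ)
      - rk (idx j).1) i) (e.symm (w, 0) i)).of_eq (fun N => ?_)
    show _ = V N j i
    simp only [V, Game.vecH, huw]
    have : (u + (N : ℤ) • w, (rk ((game M D).tgt (idx j).1 (idx j).2) : ℤ) - rk (idx j).1)
        = (u, (rk ((game M D).tgt (idx j).1 (idx j).2) : ℤ) - rk (idx j).1)
          + (N : ℤ) • (w, (0 : ℤ)) := by simp
    rw [this, map_add, map_zsmul]
    simp
  have key : ∀ N : ℕ, IsEroder (V N) tr ↔ ¬ ∃ b, M.Reach (M.s, inp N) (M.h, b) := by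
    intro N
    rw [hE (Pos D) d e]
    refine ⟨fun h hA => not_mortal_of_acc N hA h, fun h => mortal_of_not_acc N ?_ ?_ h⟩
    · have h1 : (0 : ℤ) ≤ N := by positivity
      have h2 : (0 : ℤ) ≤ D := by positivity
      omega
    · exact fun e r hr => hD e r (by omega)
  refine ⟨d, k, n, tr, Module.finrank_pos, hk, hmono, fun hc => hM ?_⟩
  obtain ⟨f, hf, hp⟩ := ComputablePred.computable_iff.1 hc
  have h1 : ComputablePred (fun N => IsEroder (V N) tr) :=
    ComputablePred.computable_iff.2 ⟨fun N => f (V N), hf.comp hV.to_comp,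
      funext fun N => congrFun hp _⟩
  exact h1.not.of_eq (fun N => by rw [key, not_not])

end Pool.Agent.MP_94d996_lc.H23
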