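import Pool.Agent.MP_94d996_lc.H23.Defs

set_option autoImplicit false

/-! Finite-horizon vector games and monotone cellular automata. -/

namespace Pool.Agent.MP_94d996_lc.H23

/-- A game graph: `Φ q` is a monotone condition on the set of winning actions. -/
structure Game (Q A : Type) where
  tgt : Q → A → Q
  Φ : Q → (A → Prop) → Prop
  cls : Q → ℕ
  mono : ∀ q P P', (∀ a, P a → P' a) → Φ q P → Φ q P'
  up : ∀ q P, Φ q P → ∃ a, P a ∧ (tgt q a = q ∨ cls q < cls (tgt q a))

namespace Game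

variable {Q A : Type} (Γ : Game Q A)

/-- Winning positions with horizon `t` and target `B`. -/
def W {G : Type} [Add G] (vec : Q → A → G) (B : Set G) : ℕ → Q → G → Prop
  | 0, _, p => p ∈ B
  | t + 1, q, p => Γ.Φ q (fun a => W vec B t (Γ.tgt q a) (p + vec q a))

/-- The same with free jumps to states of higher rank. -/
def W' {G : Type} [Add G] (rk : Q → ℕ) (vec : Q → A → G) (B : Set G) : ℕ → Q → G → Prop
  | 0, _, p => p ∈ B
  | t + 1, q, p => ∃ q', rk q ≤ rk q' ∧ Γ.Φ q' (fun a => W' rk vec B t (Γ.tgt q' a) (p + vec q' a))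

def Mortal {G : Type} [Add G] (vec : Q → A → G) : Prop :=
  ∀ B : Set G, B.Finite → ∃ T, ∀ q p, ¬ Γ.W vec B T q p

theorem W_mono {G : Type} [Add G] (vec : Q → A → G) {B B' : Set G} (h : B ⊆ B') :
    ∀ t q p, Γ.W vec B t q p → Γ.W vec B' t q p := by
  intro t
  induction t with
  | zero => exact fun q p hp => h hp
  | succ t ih => exact fun q p hp => Γ.mono _ _ _ (fun a ha => ih _ _ ha) hp

theorem W_dead {G : Type} [Add G] (vec : Q → A → G) (B : Set G) {T : ℕ}
    (h : ∀ q p, ¬ Γ.W vec B T q p) : ∀ t, T ≤ t → ∀ q p, ¬ Γ.W vec B t q p := by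
  intro t ht
  induction t, ht using Nat.le_induction with
  | base => exact h
  | succ t _ ih =>
    intro q p hp
    obtain ⟨a, ha, -⟩ := Γ.up _ _ hp
    exact ih _ _ ha

theorem W'_dead {G : Type} [Add G] (rk : Q → ℕ) (vec : Q → A → G) (B : Set G) {T : ℕ}
    (h : ∀ q p, ¬ Γ.W' rk vec B T q p) : ∀ t, T ≤ t → ∀ q p, ¬ Γ.W' rk vec B t q p := by
  intro t ht
  induction t, ht using Nat.le_induction with
  | base => exact h
  | succ t _ ih =>
    rintro q p ⟨q', -, hp⟩
    obtain ⟨a, ha, -⟩ := Γ.up _ _ hp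
    exact ih _ _ ha

theorem W'_finite {G : Type} [AddGroup G] [Finite Q] [Finite A] (rk : Q → ℕ) (vec : Q → A → G)
    {B : Set G} (hB : B.Finite) : ∀ t, {p | ∃ q, Γ.W' rk vec B t q p}.Finite := by
  intro t
  induction t with
  | zero => exact hB.subset (fun p ⟨_, hp⟩ => hp)
  | succ t ih =>
    have h1 : (⋃ m : Q × A, (fun p => p - vec m.1 m.2) '' {p | ∃ q, Γ.W' rk vec B t q p}).Finite :=
      Set.finite_iUnion (fun m => ih.image _)
    refine h1.subset ?_
    rintro p ⟨q, q', -, hp⟩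
    obtain ⟨a, ha, -⟩ := Γ.up _ _ hp
    exact Set.mem_iUnion.2 ⟨(q', a), p + vec q' a, ⟨_, ha⟩, by simp⟩

section cheat

variable {G H : Type} [AddGroup G] [AddGroup H] (e : H ≃+ G × ℤ) (rk : Q → ℕ) (vec : Q → A → G)

/-- The moves with the extra coordinate that records the rank. -/
def vecH (q : Q) (a : A) : H := e.symm (vec q a, (rk (Γ.tgt q a) : ℤ) - rk q)

theorem fst_add (p : H) (q : Q) (a : A) :
    (e (p + Γ.vecH e rk vec q a)).1 = (e p).1 + vec q a := by
  simp [vecH]

theorem snd_add (p : H) (q : Q) (a : A) :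
    (e (p + Γ.vecH e rk vec q a)).2 = (e p).2 + ((rk (Γ.tgt q a) : ℤ) - rk q) := by
  simp [vecH]

theorem lift_W (B : Set G) : ∀ t q p, Γ.W vec B t q p →
    Γ.W' rk (Γ.vecH e rk vec) (e.symm '' (B ×ˢ Set.range (fun q => (rk q : ℤ)))) t q
      (e.symm (p, rk q)) := by
  intro t
  induction t with
  | zero => exact fun q p hp => ⟨(p, rk q), ⟨hp, q, rfl⟩, rfl⟩
  | succ t ih =>
    intro q p hp
    refine ⟨q, le_rfl, Γ.mono _ _ _ (fun a ha => ?_) hp⟩
    have h1 := ih _ _ ha
    have h2 : e.symm (p, (rk q : ℤ)) + Γ.vecH e rk vec q a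
        = e.symm (p + vec q a, (rk (Γ.tgt q a) : ℤ)) := by
      rw [vecH, ← map_add]
      congr 1
      simp
    rw [h2]
    exact h1

theorem mortal_cheat [Finite Q] [Finite A] (hinj : Function.Injective rk)
    (hrk : ∀ q q', Γ.cls q < Γ.cls q' → rk q < rk q') (hM : Γ.Mortal vec)
    (B : Set H) (hB : B.Finite) : ∃ T, ∀ q p, ¬ Γ.W' rk (Γ.vecH e rk vec) B T q p := by
  obtain ⟨R, hR⟩ : ∃ R : ℤ, ∀ p ∈ B, |(e p).2| ≤ R := by
    obtain ⟨R, hR⟩ := (hB.image (fun p => |(e p).2|)).bddAbove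
    exact ⟨R, fun p hp => hR ⟨p, hp, rfl⟩⟩
  obtain ⟨K, hK⟩ : ∃ K : ℕ, ∀ q, rk q ≤ K := by
    obtain ⟨K, hK⟩ := (Set.finite_range rk).bddAbove
    exact ⟨K, fun q => hK ⟨q, rfl⟩⟩
  have upper : ∀ t q p, Γ.W' rk (Γ.vecH e rk vec) B t q p → (e p).2 ≤ R := by
    intro t
    induction t with
    | zero => exact fun q p hp => (abs_le.1 (hR p hp)).2
    | succ t ih =>
      rintro q p ⟨q', -, hp⟩
      obtain ⟨a, ha, h2⟩ := Γ.up _ _ hp
      have h3 := ih _ _ ha
      rw [snd_add] at h3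
      have h4 : rk q' ≤ rk (Γ.tgt q' a) := by
        rcases h2 with h2 | h2
        · rw [h2]
        · exact (hrk _ _ h2).le
      omega
  have lower : ∀ t q p, Γ.W' rk (Γ.vecH e rk vec) B t q p → -R - K ≤ (e p).2 - rk q := by
    intro t
    induction t with
    | zero =>
      intro q p hp
      have h1 := (abs_le.1 (hR p hp)).1
      have h2 := hK q
      omega
    | succ t ih =>
      rintro q p ⟨q', h1, hp⟩
      obtain ⟨a, ha, -⟩ := Γ.up _ _ hp
      have h3 := ih _ _ ha
      rw [snd_add] at h3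
      omega
  have main : ∀ b : ℕ, ∃ T, ∀ t, T ≤ t → ∀ q p, (e p).2 - rk q + R + K < b →
      ¬ Γ.W' rk (Γ.vecH e rk vec) B t q p := by
    intro b
    induction b with
    | zero =>
      refine ⟨0, fun t _ q p h1 hp => ?_⟩
      have := lower t q p hp
      omega
    | succ b ih =>
      obtain ⟨T, hT⟩ := ih
      have hfin := (Γ.W'_finite rk (Γ.vecH e rk vec) hB T).image (fun p => (e p).1)
      obtain ⟨T', hT'⟩ := hM _ hfin
      have key : ∀ s q p, (e p).2 - rk q + R + K < (b + 1 : ℕ) →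
          Γ.W' rk (Γ.vecH e rk vec) B (T + s) q p →
          Γ.W vec ((fun p => (e p).1) '' {p | ∃ q, Γ.W' rk (Γ.vecH e rk vec) B T q p}) s q
            (e p).1 := by
        intro s
        induction s with
        | zero => exact fun q p _ hp => ⟨p, ⟨q, hp⟩, rfl⟩
        | succ s ihs =>
          rintro q p h1 ⟨q', h2, hp⟩
          by_cases h3 : rk q = rk q'
          · have h4 : q = q' := hinj h3
            subst h4
            refine Γ.mono _ _ _ (fun a ha => ?_) hp
            have h5 := ihs _ _ (by rw [snd_add]; omega) ha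
            rw [fst_add] at h5
            exact h5
          · exfalso
            obtain ⟨a, ha, -⟩ := Γ.up _ _ hp
            refine hT (T + s) (by omega) _ _ ?_ ha
            rw [snd_add]
            omega
      refine ⟨T + T', fun t ht q p h1 hp => ?_⟩
      obtain ⟨s, rfl⟩ : ∃ s, t = T + s := ⟨t - T, by omega⟩
      exact Γ.W_dead vec _ hT' s (by omega) _ _ (key s q p h1 hp)
  obtain ⟨T, hT⟩ := main (2 * R + K + 1).toNat
  refine ⟨T, fun q p hp => hT T le_rfl q p ?_ hp⟩
  have := upper T q p hp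
  omega

end cheat

open Classical in
theorem exists_ca [Finite Q] [Finite A] :
    ∃ (k n : ℕ) (tr : (Fin n → Fin (k + 1)) → Fin (k + 1)) (idx : Fin n → Q × A) (rk : Q → ℕ),
      1 ≤ k ∧ Monotone tr ∧
      ∀ (G : Type) [AddGroup G] (d : ℕ) (e : (Fin d → ℤ) ≃+ G × ℤ) (vec : Q → A → G),
        IsEroder (fun j => Γ.vecH e rk vec (idx j).1 (idx j).2) tr ↔ Γ.Mortal vec := by
  have := Fintype.ofFinite Q
  have := Fintype.ofFinite A
  let en : Q ≃ Fin (Fintype.card Q) := Fintype.equivFin Q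
  let rk : Q → ℕ := fun q => Γ.cls q * Fintype.card Q + en q
  have hrk : ∀ q q', Γ.cls q < Γ.cls q' → rk q < rk q' := by
    intro q q' h
    have h1 := (en q).2
    have h2 : (Γ.cls q + 1) * Fintype.card Q ≤ Γ.cls q' * Fintype.card Q :=
      Nat.mul_le_mul_right _ h
    simp only [rk]
    nlinarith
  have hinj : Function.Injective rk := by
    intro q q' h
    rcases lt_trichotomy (Γ.cls q) (Γ.cls q') with h1 | h1 | h1
    · exact absurd h (hrk _ _ h1).ne
    · simp only [rk, h1] at h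
      exact en.injective (Fin.ext (by omega))
    · exact absurd h.symm (hrk _ _ h1).ne
  obtain ⟨K, hK⟩ : ∃ K : ℕ, ∀ q, rk q ≤ K := by
    obtain ⟨K, hK⟩ := (Set.finite_range rk).bddAbove
    exact ⟨K, fun q => hK ⟨q, rfl⟩⟩
  let lvl : Q → Fin (K + 1 + 1) := fun q => ⟨rk q + 1, by have := hK q; omega⟩
  have hlvl : ∀ q, (⊥ : Fin (K + 1 + 1)) < lvl q := fun q => by
    show (0 : Fin (K + 1 + 1)) < lvl q
    rw [Fin.lt_def]
    simp [lvl]
  let ix : Q × A ≃ Fin (Fintype.card (Q × A)) := Fintype.equivFin _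
  let tr : (Fin (Fintype.card (Q × A)) → Fin (K + 1 + 1)) → Fin (K + 1 + 1) := fun x =>
    Finset.univ.sup (fun q' => if Γ.Φ q' (fun a => lvl (Γ.tgt q' a) ≤ x (ix (q', a))) then lvl q'
      else ⊥)
  have htr : ∀ x q, lvl q ≤ tr x ↔
      ∃ q', rk q ≤ rk q' ∧ Γ.Φ q' (fun a => lvl (Γ.tgt q' a) ≤ x (ix (q', a))) := by
    intro x q
    simp only [tr]
    rw [Finset.le_sup_iff (hlvl q)]
    constructor
    · rintro ⟨q', -, h⟩
      split_ifs at h with h1
      · refine ⟨q', ?_, h1⟩
        have h2 : rk q + 1 ≤ rk q' + 1 := h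
        omega
      · exact absurd h (not_le.2 (hlvl q))
    · rintro ⟨q', h1, h2⟩
      refine ⟨q', Finset.mem_univ _, ?_⟩
      rw [if_pos h2]
      show rk q + 1 ≤ rk q' + 1
      omega
  have htr0 : ∀ x, tr x ≠ 0 → ∃ q, lvl q ≤ tr x := by
    intro x hx
    by_contra hc
    apply hx
    show tr x = ⊥
    simp only [tr]
    rw [Finset.sup_eq_bot_iff]
    intro q _
    split_ifs with h1
    · exact absurd ⟨q, (htr x q).2 ⟨q, le_rfl, h1⟩⟩ hc
    · rfl
  refine ⟨K + 1, Fintype.card (Q × A), tr, ix.symm, rk, by omega, ?_, ?_⟩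
  · intro x y hxy
    simp only [tr]
    refine Finset.sup_mono_fun (fun q _ => ?_)
    split_ifs with h1 h2
    · exact le_rfl
    · exact absurd (Γ.mono _ _ _ (fun a ha => le_trans ha (hxy _)) h1) h2
    · exact bot_le
    · exact le_rfl
  · intro G _ d e vec
    set v : Fin (Fintype.card (Q × A)) → Fin d → ℤ :=
      fun j => Γ.vecH e rk vec (ix.symm j).1 (ix.symm j).2 with hv
    have hstep : ∀ (s : (Fin d → ℤ) → Fin (K + 1 + 1)) t q p,
        lvl q ≤ (step v tr)^[t + 1] s p ↔ ∃ q', rk q ≤ rk q' ∧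
          Γ.Φ q' (fun a => lvl (Γ.tgt q' a) ≤ (step v tr)^[t] s (p + Γ.vecH e rk vec q' a)) := by
      intro s t q p
      rw [Function.iterate_succ_apply']
      refine (htr (fun i => (step v tr)^[t] s (p + v i)) q).trans ?_
      simp only [hv, Equiv.symm_apply_apply]
    constructor
    · intro hE B hB
      let B' : Set (Fin d → ℤ) := e.symm '' (B ×ˢ Set.range (fun q => (rk q : ℤ)))
      have hB' : B'.Finite := (hB.prod (Set.finite_range _)).image _
      let s : (Fin d → ℤ) → Fin (K + 1 + 1) := fun p => if p ∈ B' then ⊤ else 0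
      have h1 := hE s (hB'.subset (fun p hp => by
        by_contra hc
        exact hp (if_neg hc)))
      obtain ⟨T, hT⟩ := (h1.image Prod.snd).bddAbove
      have h2 : ∀ t q p, Γ.W' rk (Γ.vecH e rk vec) B' t q p → lvl q ≤ (step v tr)^[t] s p := by
        intro t
        induction t with
        | zero =>
          intro q p hp
          have : s p = ⊤ := if_pos hp
          show lvl q ≤ s p
          rw [this]
          exact le_top
        | succ t ih =>
          rintro q p ⟨q', h3, h4⟩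
          exact (hstep s t q p).2 ⟨q', h3, Γ.mono _ _ _ (fun a ha => ih _ _ ha) h4⟩
      refine ⟨T + 1, fun q p hp => ?_⟩
      have h3 := h2 _ _ _ (Γ.lift_W e rk vec B _ _ _ hp)
      have h4 : T + 1 ≤ T := hT ⟨(e.symm (p, rk q), T + 1), (lt_of_lt_of_le (hlvl q) h3).ne', rfl⟩
      omega
    · intro hM s hs
      obtain ⟨T, hT⟩ := Γ.mortal_cheat e rk vec hinj hrk hM _ hs
      have h2 : ∀ t q p, lvl q ≤ (step v tr)^[t] s p →
          Γ.W' rk (Γ.vecH e rk vec) {p | s p ≠ 0} t q p := by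
        intro t
        induction t with
        | zero => exact fun q p hp => (lt_of_lt_of_le (hlvl q) hp).ne'
        | succ t ih =>
          intro q p hp
          obtain ⟨q', h3, h4⟩ := (hstep s t q p).1 hp
          exact ⟨q', h3, Γ.mono _ _ _ (fun a ha => ih _ _ ha) h4⟩
      have h3 : ∀ t p, (step v tr)^[t + 1] s p ≠ 0 →
          ∃ q, Γ.W' rk (Γ.vecH e rk vec) {p | s p ≠ 0} (t + 1) q p := by
        intro t p hp
        have h4 : ∃ q, lvl q ≤ (step v tr)^[t + 1] s p := by
          rw [Function.iterate_succ_apply'] at hp ⊢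
          exact htr0 (fun i => (step v tr)^[t] s (p + v i)) hp
        obtain ⟨q, hq⟩ := h4
        exact ⟨q, h2 _ _ _ hq⟩
      have h4 : ∀ t, {p | (step v tr)^[t] s p ≠ 0}.Finite := by
        rintro (_ | t)
        · exact hs
        · exact (Γ.W'_finite rk (Γ.vecH e rk vec) hs (t + 1)).subset (fun p hp => h3 t p hp)
      have h5 : (⋃ t ∈ Set.Iic T, (fun p => (p, t)) '' {p | (step v tr)^[t] s p ≠ 0}).Finite :=
        (Set.finite_Iic T).biUnion (fun t _ => (h4 t).image _)
      refine h5.subset ?_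
      rintro ⟨p, t⟩ hw
      refine Set.mem_biUnion (x := t) ?_ ⟨p, hw, rfl⟩
      by_contra hc
      have h6 : T < t := not_le.1 hc
      obtain ⟨t, rfl⟩ : ∃ u, t = u + 1 := ⟨t - 1, by omega⟩
      obtain ⟨q, hq⟩ := h3 t p hw
      exact Γ.W'_dead rk _ _ hT _ h6.le q p hq

end Game

end Pool.Agent.MP_94d996_lc.H23
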