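import Mathlib

set_option autoImplicit false

/-! Nondeterministic counter machines and their closure properties. -/

namespace Pool.Agent.MP_94d996_lc.H23

open Relation Function

abbrev Val := ℕ → ℕ

/-- A nondeterministic counter machine with registers indexed by natural numbers. -/
structure Mach where
  L : Type
  E : Type
  fL : Finite L
  fE : Finite E
  src : E → L
  dst : E → L
  del : E → ℕ → ℤ
  tst : E → ℕ → Prop
  s : L
  h : L
  bd : ∃ D : ℕ, ∀ e r, D ≤ r → del e r = 0 ∧ ¬ tst e r
  one : ∀ e r, |del e r| ≤ 1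

/-- The effect of one edge on the registers. -/
def Eff (d : ℕ → ℤ) (t : ℕ → Prop) (a b : Val) : Prop :=
  (∀ r, (b r : ℤ) = a r + d r) ∧ ∀ r, t r → a r = 0

def Mach.Step (M : Mach) (x y : M.L × Val) : Prop :=
  ∃ e, M.src e = x.1 ∧ M.dst e = y.1 ∧ Eff (M.del e) (M.tst e) x.2 y.2

def Mach.Reach (M : Mach) (x y : M.L × Val) : Prop := ReflTransGen M.Step x y

/-- A relation realised by a machine. -/
def Rel (ρ : Val → Val → Prop) : Prop :=
  ∃ M : Mach, ∀ a b, ρ a b ↔ M.Reach (M.s, a) (M.h, b)

theorem Rel.congr {ρ ρ' : Val → Val → Prop} (h : Rel ρ) (e : ∀ a b, ρ a b ↔ ρ' a b) : Rel ρ' := by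
  obtain ⟨M, hM⟩ := h
  exact ⟨M, fun a b => (e a b).symm.trans (hM a b)⟩

theorem eff_nop (a b : Val) : Eff (fun _ => 0) (fun _ => False) a b ↔ b = a := by
  constructor
  · rintro ⟨h, -⟩
    funext r
    have := h r
    simpa using this
  · rintro rfl
    exact ⟨fun r => by simp, fun r h => h.elim⟩

theorem rel_atom (d : ℕ → ℤ) (t : ℕ → Prop) (D : ℕ) (hD : ∀ r, D ≤ r → d r = 0 ∧ ¬ t r)
    (h1 : ∀ r, |d r| ≤ 1) : Rel (Eff d t) := by
  let M : Mach :=
    { L := Bool, E := Unit, fL := inferInstance, fE := inferInstance,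
      src := fun _ => false, dst := fun _ => true, del := fun _ => d, tst := fun _ => t,
      s := false, h := true, bd := ⟨D, fun _ r hr => hD r hr⟩, one := fun _ r => h1 r }
  refine ⟨M, fun a b => ⟨fun h => ReflTransGen.single ⟨(), rfl, rfl, h⟩, fun h => ?_⟩⟩
  have key : ∀ y : M.L × Val, M.Reach (false, a) y →
      (y = (false, a) ∨ (y.1 = true ∧ Eff d t a y.2)) := by
    intro y hy
    induction hy with
    | refl => exact Or.inl rfl
    | tail _ hs ih =>
      obtain ⟨e, h1, h2, h3⟩ := hs
      rcases ih with ih | ih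
      · subst ih
        exact Or.inr ⟨h2.symm, h3⟩
      · rw [ih.1] at h1
        exact absurd h1 (by simp [M])
  rcases key _ h with h' | h'
  · exact absurd (congrArg Prod.fst h') (by simp [M])
  · exact h'.2

theorem Rel.comp {ρ σ : Val → Val → Prop} (h1 : Rel ρ) (h2 : Rel σ) :
    Rel (fun a c => ∃ b, ρ a b ∧ σ b c) := by
  obtain ⟨M, hM⟩ := h1
  obtain ⟨N, hN⟩ := h2
  have := M.fL; have := M.fE; have := N.fL; have := N.fE
  obtain ⟨D1, hD1⟩ := M.bd
  obtain ⟨D2, hD2⟩ := N.bd
  let P : Mach :=
    { L := M.L ⊕ N.L, E := Option (M.E ⊕ N.E), fL := inferInstance, fE := inferInstance,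
      src := fun e => match e with
        | none => .inl M.h
        | some (.inl e) => .inl (M.src e)
        | some (.inr e) => .inr (N.src e)
      dst := fun e => match e with
        | none => .inr N.s
        | some (.inl e) => .inl (M.dst e)
        | some (.inr e) => .inr (N.dst e)
      del := fun e => match e with
        | none => fun _ => 0
        | some (.inl e) => M.del e
        | some (.inr e) => N.del e
      tst := fun e => match e with
        | none => fun _ => False
        | some (.inl e) => M.tst e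
        | some (.inr e) => N.tst e
      s := .inl M.s, h := .inr N.h,
      bd := ⟨max D1 D2, by
        rintro (_ | e | e) r hr
        · simp
        · exact hD1 e r (le_trans (le_max_left _ _) hr)
        · exact hD2 e r (le_trans (le_max_right _ _) hr)⟩
      one := by
        rintro (_ | e | e) r
        · simp
        · exact M.one e r
        · exact N.one e r }
  refine ⟨P, fun a c => ⟨?_, fun h => ?_⟩⟩
  · rintro ⟨b, hb1, hb2⟩
    have l1 : P.Reach (.inl M.s, a) (.inl M.h, b) := by
      refine ReflTransGen.lift (fun x : M.L × Val => ((Sum.inl x.1 : P.L), x.2)) ?_ _ _ ((hM _ _).1 hb1)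
      rintro x y ⟨e, e1, e2, e3⟩
      exact ⟨some (.inl e), congrArg Sum.inl e1, congrArg Sum.inl e2, e3⟩
    have l2 : P.Reach (.inr N.s, b) (.inr N.h, c) := by
      refine ReflTransGen.lift (fun x : N.L × Val => ((Sum.inr x.1 : P.L), x.2)) ?_ _ _ ((hN _ _).1 hb2)
      rintro x y ⟨e, e1, e2, e3⟩
      exact ⟨some (.inr e), congrArg Sum.inr e1, congrArg Sum.inr e2, e3⟩
    have l3 : P.Reach (.inl M.s, a) (.inr N.s, b) :=
      ReflTransGen.tail l1 ⟨none, rfl, rfl, (eff_nop _ _).2 rfl⟩
    exact l3.trans l2
  · have key : ∀ y : P.L × Val, P.Reach (.inl M.s, a) y →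
        (∃ l, y.1 = .inl l ∧ M.Reach (M.s, a) (l, y.2)) ∨
        (∃ l b, y.1 = .inr l ∧ ρ a b ∧ N.Reach (N.s, b) (l, y.2)) := by
      intro y hy
      induction hy with
      | refl => exact Or.inl ⟨M.s, rfl, ReflTransGen.refl⟩
      | @tail x y _ hs ih =>
        obtain ⟨e, e1, e2, e3⟩ := hs
        rcases e with _ | e | e
        · rcases ih with ⟨l, i1, i2⟩ | ⟨l, b, i1, -⟩
          · have : l = M.h := by
              rw [i1] at e1; exact (Sum.inl.inj e1).symm
            subst this
            have e4 : y.2 = x.2 := (eff_nop _ _).1 e3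
            exact Or.inr ⟨N.s, x.2, e2.symm, (hM _ _).2 i2, by rw [e4]; exact ReflTransGen.refl⟩
          · rw [i1] at e1; exact absurd e1 (by simp [P])
        · rcases ih with ⟨l, i1, i2⟩ | ⟨l, b, i1, -⟩
          · have : M.src e = l := by
              rw [i1] at e1; exact Sum.inl.inj e1
            exact Or.inl ⟨M.dst e, e2.symm, i2.tail ⟨e, this, rfl, e3⟩⟩
          · rw [i1] at e1; exact absurd e1 (by simp [P])
        · rcases ih with ⟨l, i1, -⟩ | ⟨l, b, i1, i2, i3⟩
          · rw [i1] at e1; exact absurd e1 (by simp [P])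
          · have : N.src e = l := by
              rw [i1] at e1; exact Sum.inr.inj e1
            exact Or.inr ⟨N.dst e, b, e2.symm, i2, i3.tail ⟨e, this, rfl, e3⟩⟩
    rcases key _ h with ⟨l, i1, -⟩ | ⟨l, b, i1, i2, i3⟩
    · exact absurd i1 (by simp [P])
    · have : N.h = l := Sum.inr.inj i1
      subst this
      exact ⟨b, i2, (hN _ _).2 i3⟩

theorem Rel.star {ρ : Val → Val → Prop} (h1 : Rel ρ) : Rel (ReflTransGen ρ) := by
  obtain ⟨M, hM⟩ := h1
  have := M.fL; have := M.fE
  obtain ⟨D1, hD1⟩ := M.bd
  let P : Mach :=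
    { L := Option M.L, E := Bool ⊕ M.E, fL := inferInstance, fE := inferInstance,
      src := fun e => match e with
        | .inl false => none
        | .inl true => some M.h
        | .inr e => some (M.src e)
      dst := fun e => match e with
        | .inl false => some M.s
        | .inl true => none
        | .inr e => some (M.dst e)
      del := fun e => match e with
        | .inl _ => fun _ => 0
        | .inr e => M.del e
      tst := fun e => match e with
        | .inl _ => fun _ => False
        | .inr e => M.tst e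
      s := none, h := none,
      bd := ⟨D1, by
        rintro (_ | e) r hr
        · simp
        · exact hD1 e r hr⟩
      one := by
        rintro (_ | e) r
        · simp
        · exact M.one e r }
  refine ⟨P, fun a c => ⟨fun h => ?_, fun h => ?_⟩⟩
  · induction h with
    | refl => exact ReflTransGen.refl
    | @tail b c _ hs ih =>
      have l1 : P.Reach (some M.s, b) (some M.h, c) := by
        refine ReflTransGen.lift (fun x : M.L × Val => ((some x.1 : P.L), x.2)) ?_ _ _ ((hM _ _).1 hs)
        rintro x y ⟨e, e1, e2, e3⟩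
        exact ⟨.inr e, congrArg some e1, congrArg some e2, e3⟩
      have l0 : P.Reach (none, a) (some M.s, b) :=
        ReflTransGen.tail ih ⟨.inl false, rfl, rfl, (eff_nop _ _).2 rfl⟩
      exact (l0.trans l1).tail ⟨.inl true, rfl, rfl, (eff_nop _ _).2 rfl⟩
  · have key : ∀ y : P.L × Val, P.Reach (none, a) y →
        (y.1 = none ∧ ReflTransGen ρ a y.2) ∨
        (∃ l b, y.1 = some l ∧ ReflTransGen ρ a b ∧ M.Reach (M.s, b) (l, y.2)) := by
      intro y hy
      induction hy with
      | refl => exact Or.inl ⟨rfl, ReflTransGen.refl⟩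
      | @tail x y _ hs ih =>
        obtain ⟨e, e1, e2, e3⟩ := hs
        rcases e with (_ | _) | e
        · have e4 : y.2 = x.2 := (eff_nop _ _).1 e3
          rcases ih with ⟨i1, i2⟩ | ⟨l, b, i1, -⟩
          · exact Or.inr ⟨M.s, x.2, e2.symm, i2, by rw [e4]; exact ReflTransGen.refl⟩
          · rw [i1] at e1; exact absurd e1 (by simp [P])
        · have e4 : y.2 = x.2 := (eff_nop _ _).1 e3
          rcases ih with ⟨i1, -⟩ | ⟨l, b, i1, i2, i3⟩
          · rw [i1] at e1; exact absurd e1 (by simp [P])
          · have : M.h = l := by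
              rw [i1] at e1; exact Option.some.inj e1
            subst this
            exact Or.inl ⟨e2.symm, by rw [e4]; exact i2.tail ((hM _ _).2 i3)⟩
        · rcases ih with ⟨i1, -⟩ | ⟨l, b, i1, i2, i3⟩
          · rw [i1] at e1; exact absurd e1 (by simp [P])
          · have : M.src e = l := by
              rw [i1] at e1; exact Option.some.inj e1
            exact Or.inr ⟨M.dst e, b, e2.symm, i2, i3.tail ⟨e, this, rfl, e3⟩⟩
    rcases key _ h with ⟨-, i2⟩ | ⟨l, b, i1, -⟩
    · exact i2
    · exact absurd i1 (by simp [P])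

theorem rel_inc (r : ℕ) : Rel (fun a b => b = update a r (a r + 1)) := by
  refine (rel_atom (fun x => if x = r then 1 else 0) (fun _ => False) (r + 1) ?_ ?_).congr ?_
  · intro x hx
    have : x ≠ r := by omega
    simp [this]
  · intro x
    split_ifs <;> simp
  · intro a b
    constructor
    · rintro ⟨h, -⟩
      funext x
      have := h x
      by_cases hx : x = r
      · subst hx; simp at this ⊢; omega
      · simp [hx] at this ⊢; omega
    · rintro rfl
      refine ⟨fun x => ?_, fun _ h => h.elim⟩
      by_cases hx : x = r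
      · subst hx; simp
      · simp [hx]

theorem rel_dec (r : ℕ) : Rel (fun a b => 0 < a r ∧ b = update a r (a r - 1)) := by
  refine (rel_atom (fun x => if x = r then -1 else 0) (fun _ => False) (r + 1) ?_ ?_).congr ?_
  · intro x hx
    have : x ≠ r := by omega
    simp [this]
  · intro x
    split_ifs <;> simp
  · intro a b
    constructor
    · rintro ⟨h, -⟩
      have hr := h r
      simp at hr
      refine ⟨by omega, ?_⟩
      funext x
      have := h x
      by_cases hx : x = r
      · subst hx; simp at this ⊢; omega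
      · simp [hx] at this ⊢; omega
    · rintro ⟨h0, rfl⟩
      refine ⟨fun x => ?_, fun _ h => h.elim⟩
      by_cases hx : x = r
      · subst hx; simp; omega
      · simp [hx]

theorem rel_zero (r : ℕ) : Rel (fun a b => a r = 0 ∧ b = a) := by
  refine (rel_atom (fun _ => 0) (fun x => x = r) (r + 1) ?_ ?_).congr ?_
  · intro x hx
    have : x ≠ r := by omega
    simp [this]
  · intro x
    simp
  · intro a b
    constructor
    · rintro ⟨h, h'⟩
      refine ⟨h' r rfl, ?_⟩
      funext x
      simpa using h x
    · rintro ⟨h0, rfl⟩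
      exact ⟨fun x => by simp, fun x h => h ▸ h0⟩

theorem rel_skip : Rel (fun a b => b = a) :=
  (rel_atom (fun _ => 0) (fun _ => False) 0 (by simp) (by simp)).congr eff_nop

end Pool.Agent.MP_94d996_lc.H23
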