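import Pool.Agent.MP_94d996_lc.H23.Mach

set_option autoImplicit false

/-! Every primitive recursive function is computed by a counter machine; a fixed machine with an
undecidable acceptance problem. -/

namespace Pool.Agent.MP_94d996_lc.H23

open Relation Function

/-- All registers from `B` on vanish. -/
def Z (B : ℕ) (a : Val) : Prop := ∀ r, B ≤ r → a r = 0

/-- Some machine computes `F` on valuations vanishing from `B` on. -/
def Spec (B : ℕ) (F : Val → Val) : Prop :=
  ∃ ρ, Rel ρ ∧ ∀ a, Z B a → ∀ b, (ρ a b ↔ b = F a)

theorem Spec.mono {B B' : ℕ} {F : Val → Val} (h : Spec B F) (hB : B' ≤ B) : Spec B' F := by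
  obtain ⟨ρ, h1, h2⟩ := h
  exact ⟨ρ, h1, fun a ha => h2 a (fun r hr => ha r (hB.trans hr))⟩

theorem Spec.congr {B : ℕ} {F G : Val → Val} (h : Spec B F) (e : ∀ a, Z B a → F a = G a) :
    Spec B G := by
  obtain ⟨ρ, h1, h2⟩ := h
  exact ⟨ρ, h1, fun a ha b => by rw [← e a ha]; exact h2 a ha b⟩

theorem Spec.comp {B B' : ℕ} {F G : Val → Val} (hF : Spec B F) (hG : Spec B' G)
    (hz : ∀ a, Z B a → Z B' (F a)) : Spec B (fun a => G (F a)) := by
  obtain ⟨ρ, h1, h2⟩ := hF
  obtain ⟨σ, g1, g2⟩ := hG
  refine ⟨_, h1.comp g1, fun a ha c => ⟨?_, ?_⟩⟩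
  · rintro ⟨b, hb, hc⟩
    rw [(h2 a ha b).1 hb] at hc
    exact (g2 _ (hz a ha) c).1 hc
  · intro hc
    exact ⟨F a, (h2 a ha _).2 rfl, (g2 _ (hz a ha) c).2 hc⟩

theorem spec_id (B : ℕ) : Spec B (fun a => a) := ⟨_, rel_skip, fun _ _ _ => Iff.rfl⟩

theorem spec_inc (B r : ℕ) : Spec B (fun a => update a r (a r + 1)) :=
  ⟨_, rel_inc r, fun _ _ _ => Iff.rfl⟩

theorem Z.update {B : ℕ} {a : Val} (h : Z B a) {r : ℕ} (hr : r < B) (v : ℕ) :
    Z B (update a r v) := by
  intro x hx
  rw [update_of_ne (by omega)]
  exact h x hx

theorem Spec.loop {B : ℕ} {G : Val → Val} (hG : Spec B G) (r : ℕ) (hr : r < B)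
    (hz : ∀ a, Z B a → Z B (G a)) (hi : ∀ a v, G (update a r v) = update (G a) r v) :
    Spec B (fun a => G^[a r] (update a r 0)) := by
  obtain ⟨σ, g1, g2⟩ := hG
  have hGr : ∀ a, G a r = a r := by
    intro a
    have := congrFun (hi a (a r)) r
    simpa using this
  let ρ : Val → Val → Prop := fun a c => ∃ b, (0 < a r ∧ b = update a r (a r - 1)) ∧ σ b c
  have hρ : Rel ρ := (rel_dec r).comp g1
  have step : ∀ a c, Z B a → (ρ a c ↔ 0 < a r ∧ c = G (update a r (a r - 1))) := by
    intro a c ha
    constructor
    · rintro ⟨b, ⟨h0, rfl⟩, hc⟩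
      exact ⟨h0, (g2 _ (ha.update hr _) c).1 hc⟩
    · rintro ⟨h0, hc⟩
      exact ⟨_, ⟨h0, rfl⟩, (g2 _ (ha.update hr _) c).2 hc⟩
  have pres : ∀ a, 0 < a r → G^[G (update a r (a r - 1)) r]
      (update (G (update a r (a r - 1))) r 0) = G^[a r] (update a r 0) := by
    intro a h0
    rw [hGr, ← hi]
    simp only [update_self, update_idem]
    obtain ⟨k, hk⟩ : ∃ k, a r = k + 1 := ⟨a r - 1, by omega⟩
    rw [hk]
    simp
  refine ⟨_, hρ.star.comp (rel_zero r), fun a ha c => ⟨?_, ?_⟩⟩
  · rintro ⟨b, hb, h0, rfl⟩
    have key : Z B c ∧ G^[c r] (update c r 0) = G^[a r] (update a r 0) := by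
      clear h0
      induction hb with
      | refl => exact ⟨ha, rfl⟩
      | @tail x y _ hs ih =>
        obtain ⟨h0, rfl⟩ := (step _ _ ih.1).1 hs
        exact ⟨hz _ (ih.1.update hr _), (pres x h0).trans ih.2⟩
    have h2 := key.2
    rw [h0] at h2
    have h3 : update c r 0 = c := by rw [← h0]; simp
    rw [h3] at h2
    exact h2
  · rintro rfl
    have key : ∀ k a, Z B a → a r = k →
        ReflTransGen ρ a (G^[a r] (update a r 0)) ∧ (G^[a r] (update a r 0)) r = 0 := by
      intro k
      induction k with
      | zero =>
        intro a _ h0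
        have h3 : update a r 0 = a := by rw [← h0]; simp
        rw [h3, h0]
        exact ⟨ReflTransGen.refl, h0⟩
      | succ k ih =>
        intro a ha h0
        have h1 : 0 < a r := by omega
        have h2 := ih (G (update a r (a r - 1))) (hz _ (ha.update hr _)) (by rw [hGr]; simp; omega)
        rw [pres a h1] at h2
        exact ⟨ReflTransGen.head ((step _ _ ha).2 ⟨h1, rfl⟩) h2.1, h2.2⟩
    exact ⟨_, (key _ a ha rfl).1, (key _ a ha rfl).2, rfl⟩

theorem spec_clear (B r : ℕ) (hr : r < B) : Spec B (fun a => update a r 0) :=
  ((spec_id B).loop r hr (fun _ h => h) (fun _ _ => rfl)).congr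
    (fun a _ => by rw [show (fun a : Val => a) = id from rfl, iterate_id]; rfl)

/-- Move register `r` into register `s`. -/
theorem spec_move (B r s : ℕ) (hr : r < B) (hs : s < B) (hrs : r ≠ s) :
    Spec B (fun a => update (update a r 0) s (a s + a r)) := by
  refine ((spec_inc B s).loop r hr (fun a h => h.update hs _) ?_).congr ?_
  · intro a v
    rw [update_of_ne hrs.symm, update_comm hrs]
  · intro a _
    have : ∀ k (x : Val), (fun a : Val => update a s (a s + 1))^[k] x = update x s (x s + k) := by
      intro k
      induction k with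
      | zero => intro x; simp
      | succ k ih =>
        intro x
        rw [iterate_succ_apply, ih]
        simp only [update_self, update_idem]
        congr 1
        omega
    rw [this, update_of_ne hrs.symm]

/-- Add register `r` to register `s`, keeping `r`. -/
theorem spec_add (B r s : ℕ) (hr : r < B) (hs : s < B) (hrs : r ≠ s) :
    Spec B (fun a => update a s (a s + a r)) := by
  have hBr : B ≠ r := by omega
  have hBs : B ≠ s := by omega
  have h1 : Spec (B + 1) (fun a => update (update a s (a s + 1)) B (a B + 1)) := by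
    refine ((spec_inc (B + 1) s).comp (spec_inc (B + 1) B)
      (fun a h => h.update (by omega) _)).congr (fun a _ => ?_)
    rw [update_of_ne hBs]
  have h2 := h1.loop r (by omega) (fun a h => (h.update (by omega) _).update (by omega) _) (by
    intro a v
    funext x
    simp only [update_apply]
    split_ifs <;> omega)
  have h3 : Spec (B + 1) (fun a => update (update (update a r 0) s (a s + a r)) B (a B + a r)) := by
    refine h2.congr (fun a _ => ?_)
    have : ∀ k (x : Val), (fun a : Val => update (update a s (a s + 1)) B (a B + 1))^[k] x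
        = update (update x s (x s + k)) B (x B + k) := by
      intro k
      induction k with
      | zero => intro x; simp
      | succ k ih =>
        intro x
        rw [iterate_succ_apply, ih]
        funext y
        simp only [update_apply]
        split_ifs <;> omega
    rw [this, update_of_ne hrs.symm, update_of_ne hBr]
  have h4 := h3.comp (spec_move (B + 1) B r (by omega) (by omega) hBr)
    (fun a h => ((h.update (by omega) _).update (by omega) _).update (by omega) _)
  refine (h4.mono (by omega : B ≤ B + 1)).congr (fun a ha => ?_)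
  have := ha B le_rfl
  funext y
  simp only [update_apply]
  split_ifs <;> first | omega | (subst_vars; omega)

theorem spec_clear_range (B m j : ℕ) (hj : j ≤ m) :
    Spec (B + m) (fun a x => if B ≤ x ∧ x < B + j then 0 else a x) := by
  induction j with
  | zero => exact (spec_id _).congr (fun a _ => by funext x; rw [if_neg (by omega)])
  | succ j ih =>
    refine ((ih (by omega)).comp (spec_clear (B + m) (B + j) (by omega)) ?_).congr ?_
    · intro a ha x hx
      simp only
      rw [if_neg (by omega)]
      exact ha x hx
    · intro a _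
      funext x
      simp only [update_apply]
      split_ifs <;> omega

/-- `f` can be added to any output register, reading any input registers. -/
def Computes (n : ℕ) (f : List.Vector ℕ n → ℕ) : Prop :=
  ∀ (ι : Fin n → ℕ) (o B : ℕ), (∀ i, ι i < B) → o < B → (∀ i, ι i ≠ o) →
    Spec B (fun a => update a o (a o + f (List.Vector.ofFn fun i => a (ι i))))

theorem computes_comp {m n : ℕ} {f : List.Vector ℕ n → ℕ} (g : Fin n → List.Vector ℕ m → ℕ)
    (hf : Computes n f) (hg : ∀ i, Computes m (g i)) :
    Computes m (fun a => f (List.Vector.ofFn fun i => g i a)) := by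
  intro ι o B hι ho hne
  have h1 : ∀ j, j ≤ n → Spec (B + n) (fun a x => if h : B ≤ x ∧ x < B + j ∧ x - B < n then
      a x + g ⟨x - B, h.2.2⟩ (List.Vector.ofFn fun i => a (ι i)) else a x) := by
    intro j hj
    induction j with
    | zero => exact (spec_id _).congr (fun a _ => by funext x; rw [dif_neg (by omega)])
    | succ j ih =>
      have h2 := hg ⟨j, by omega⟩ ι (B + j) (B + n) (fun i => by have := hι i; omega) (by omega)
        (fun i => by have := hι i; omega)
      refine ((ih (by omega)).comp h2 ?_).congr ?_
      · intro a ha x hx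
        simp only
        rw [dif_neg (by omega)]
        exact ha x hx
      · intro a _
        have e1 : (List.Vector.ofFn fun i => (if h : B ≤ ι i ∧ ι i < B + j ∧ ι i - B < n then
            a (ι i) + g ⟨ι i - B, h.2.2⟩ (List.Vector.ofFn fun i => a (ι i)) else a (ι i)))
            = List.Vector.ofFn fun i => a (ι i) := by
          congr 1
          funext i
          rw [dif_neg (by have := hι i; omega)]
        funext x
        simp only [update_apply, e1]
        by_cases hx : x = B + j
        · subst hx
          rw [if_pos rfl, dif_neg (by omega), dif_pos (by omega)]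
          congr 3
          omega
        · rw [if_neg hx]
          by_cases h3 : B ≤ x ∧ x < B + j ∧ x - B < n
          · rw [dif_pos h3, dif_pos (by omega)]
          · rw [dif_neg h3, dif_neg (by omega)]
  have h2 := hf (fun i => B + i) o (B + n) (fun i => by have := i.2; omega) (by omega)
    (fun i => by omega)
  have h3 := ((h1 n le_rfl).comp h2 (by
    intro a ha x hx
    simp only
    rw [dif_neg (by omega)]
    exact ha x hx)).comp (spec_clear_range B n n le_rfl) (by
    intro a ha x hx
    simp only
    rw [update_of_ne (by omega), dif_neg (by omega)]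
    exact ha x hx)
  refine (h3.mono (by omega : B ≤ B + n)).congr (fun a ha => ?_)
  have e1 : (List.Vector.ofFn fun i : Fin n =>
      (if h : B ≤ B + i ∧ B + i < B + n ∧ B + i - B < n then
        a (B + i) + g ⟨B + i - B, h.2.2⟩ (List.Vector.ofFn fun i => a (ι i)) else a (B + i)))
      = List.Vector.ofFn fun i => g i (List.Vector.ofFn fun i => a (ι i)) := by
    congr 1
    funext i
    have := i.2
    rw [dif_pos (by omega), ha _ (by omega), zero_add]
    congr 2
    omega
  funext x
  simp only [update_apply, e1]
  by_cases hx : x = o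
  · subst hx
    rw [if_neg (by omega), if_pos rfl, if_pos rfl, dif_neg (by omega)]
  · rw [if_neg hx, if_neg hx]
    by_cases h4 : B ≤ x ∧ x < B + n
    · rw [if_pos h4, ha _ h4.1]
    · rw [if_neg h4, dif_neg (by omega)]

theorem computes_prec {n : ℕ} {f : List.Vector ℕ n → ℕ} {g : List.Vector ℕ (n + 2) → ℕ}
    (hf : Computes n f) (hg : Computes (n + 2) g) :
    Computes (n + 1) (fun v : List.Vector ℕ (n + 1) =>
      v.head.rec (f v.tail) fun y IH => g (y ::ᵥ IH ::ᵥ v.tail)) := by
  intro ι o B hι ho hne
  -- registers: `B` counts up, `B + 1` accumulator, `B + 2` new value, `B + 3` counts down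
  let tl : Val → List.Vector ℕ n := fun a => List.Vector.ofFn fun i : Fin n => a (ι i.succ)
  have htl : ∀ (a : Val) (x v : ℕ), B ≤ x → tl (update a x v) = tl a := by
    intro a x v hx
    simp only [tl]
    congr 1
    funext i
    rw [update_of_ne (by have := hι i.succ; omega)]
  let ι2 : Fin (n + 2) → ℕ := Fin.cons B (Fin.cons (B + 1) fun i : Fin n => ι i.succ)
  have hι2 : ∀ a : Val, (List.Vector.ofFn fun i => a (ι2 i)) = a B ::ᵥ a (B + 1) ::ᵥ tl a := by
    intro a
    simp [ι2, tl, List.Vector.ofFn]
  have g1 := hg ι2 (B + 2) (B + 4) (by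
      intro i
      refine Fin.cases ?_ (fun i => Fin.cases ?_ (fun i => ?_) i) i
      · simp [ι2]
      · simp [ι2]
      · have := hι i.succ
        simp [ι2]; omega) (by omega) (by
      intro i
      refine Fin.cases ?_ (fun i => Fin.cases ?_ (fun i => ?_) i) i
      · simp [ι2]
      · simp [ι2]
      · have := hι i.succ
        simp [ι2]; omega)
  simp only [hι2] at g1
  let body : Val → Val := fun a => update (update (update a (B + 2) 0) (B + 1)
    (a (B + 2) + g (a B ::ᵥ a (B + 1) ::ᵥ tl a))) B (a B + 1)
  have hbody : Spec (B + 4) body := by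
    refine (((g1.comp (spec_clear (B + 4) (B + 1) (by omega))
      (fun a h => h.update (by omega) _)).comp
      (spec_move (B + 4) (B + 2) (B + 1) (by omega) (by omega) (by omega))
      (fun a h => (h.update (by omega) _).update (by omega) _)).comp (spec_inc (B + 4) B)
      (fun a h => (((h.update (by omega) _).update (by omega) _).update (by omega) _).update
        (by omega) _)).congr (fun a _ => ?_)
    funext x
    simp only [body, update_apply]
    split_ifs <;> omega
  have hloop := hbody.loop (B + 3) (by omega)
    (fun a h => ((h.update (by omega) _).update (by omega) _).update (by omega) _) (by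
      intro a v
      funext x
      simp only [body, htl a (B + 3) v (by omega), update_apply]
      split_ifs <;> omega)
  have iter : ∀ k (x : Val), x B = 0 → x (B + 2) = 0 → body^[k] x = update (update x (B + 1)
      (Nat.rec (x (B + 1)) (fun y IH => g (y ::ᵥ IH ::ᵥ tl x)) k)) B k := by
    intro k x h0 h2
    induction k with
    | zero =>
      funext y
      simp only [iterate_zero, id, update_apply]
      split_ifs <;> first | rfl | (subst_vars; simp [h0])
    | succ k ih =>
      rw [iterate_succ_apply', ih]
      funext y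
      simp only [body, htl _ B _ le_rfl, htl _ (B + 1) _ (by omega), update_apply]
      split_ifs <;> first | omega | rfl | (subst_vars; simp [h2]) 
  have f1 := hf (fun i => ι i.succ) (B + 1) (B + 4) (fun i => by have := hι i.succ; omega)
    (by omega) (fun i => by have := hι i.succ; omega)
  have h0B := hι 0
  have a1 := spec_add (B + 4) (ι 0) (B + 3) (by omega) (by omega) (by omega)
  have all := ((((f1.comp a1 (fun a h => h.update (by omega) _)).comp hloop
    (fun a h => (h.update (by omega) _).update (by omega) _)).mono
    (by omega : B ≤ B + 4)).congr (G := fun a => update (update a (B + 1)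
      (Nat.rec (f (tl a)) (fun y IH => g (y ::ᵥ IH ::ᵥ tl a)) (a (ι 0)))) B (a (ι 0))) (by
      intro a ha
      have z0 := ha B le_rfl
      have z1 := ha (B + 1) (by omega)
      have z2 := ha (B + 2) (by omega)
      have z3 := ha (B + 3) (by omega)
      rw [iter _ _ (by simp [z0]) (by simp [z2])]
      have e1 : ι 0 ≠ B + 1 := by omega
      funext y
      simp only [htl _ (B + 3) _ (by omega), htl _ (B + 1) _ (by omega), update_apply]
      split_ifs <;> first | omega | (subst_vars; simp [z1, z3, tl]))).comp
      (spec_move (B + 2) (B + 1) o (by omega) (by omega) (by omega)) (by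
        intro a ha x hx
        rw [update_of_ne (by omega), update_of_ne (by omega)]
        exact ha x (by omega))
  have all2 := all.comp (spec_clear (B + 2) B (by omega)) (by
    intro a ha x hx
    rw [update_of_ne (by omega), update_of_ne (by omega), update_of_ne (by omega),
      update_of_ne (by omega)]
    exact ha x (by omega))
  refine all2.congr (fun a ha => ?_)
  have z0 := ha B le_rfl
  have z1 := ha (B + 1) (by omega)
  have e1 : (List.Vector.ofFn fun i => a (ι i)).head = a (ι 0) := by simp
  have e2 : (List.Vector.ofFn fun i => a (ι i)).tail = tl a := by simp [tl]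
  funext y
  simp only [update_apply, e1, e2]
  split_ifs <;> first | omega | rfl | (subst_vars; omega)

theorem computes_of_prim {n : ℕ} {f : List.Vector ℕ n → ℕ} (h : Nat.Primrec' f) :
    Computes n f := by
  induction h with
  | zero =>
    intro ι o B _ _ _
    exact (spec_id B).congr (fun a _ => by simp)
  | succ =>
    intro ι o B hι ho hne
    refine ((spec_add B (ι 0) o (hι 0) ho (hne 0)).comp (spec_inc B o)
      (fun a h => h.update ho _)).congr (fun a _ => ?_)
    simp [add_assoc]
  | get i =>
    intro ι o B hι ho hne
    exact (spec_add B (ι i) o (hι i) ho (hne i)).congr (fun a _ => by simp)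
  | comp g _ _ ihf ihg => exact computes_comp g ihf ihg
  | prec _ _ ihf ihg => exact computes_prec ihf ihg

/-- The start valuation: `n` in register `0`. -/
def inp (n : ℕ) : Val := fun r => if r = 0 then n else 0

open Nat.Partrec.Code in
theorem exists_undecidable_mach :
    ∃ M : Mach, ¬ ComputablePred (fun n : ℕ => ∃ b, M.Reach (M.s, inp n) (M.h, b)) := by
  let g : ℕ → ℕ → ℕ := fun n k =>
    cond (evaln k (Denumerable.ofNat Nat.Partrec.Code n) 0).isSome 0 1
  have hg : Primrec₂ g := by
    have h1 : Primrec (fun p : ℕ × ℕ => evaln p.2 (Denumerable.ofNat Nat.Partrec.Code p.1) 0) :=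
      primrec_evaln.comp ((Primrec.snd.pair ((Primrec.ofNat _).comp Primrec.fst)).pair
        (Primrec.const 0))
    exact Primrec.cond (Primrec.option_isSome.comp h1) (Primrec.const 0) (Primrec.const 1)
  have hc := computes_of_prim (Nat.Primrec'.prim_iff₂.2 hg) (fun i => i) 2 3
    (fun i => by have := i.2; omega) (by omega) (fun i => by have := i.2; omega)
  obtain ⟨ρ, h1, h2⟩ := hc
  obtain ⟨M, hM⟩ := ((rel_inc 1).star.comp h1).comp (rel_zero 2)
  refine ⟨M, fun hcomp => ?_⟩
  have star : ∀ n c, ReflTransGen (fun a b : Val => b = update a 1 (a 1 + 1)) (inp n) c ↔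
      ∃ k, c = update (inp n) 1 k := by
    intro n c
    constructor
    · intro h
      induction h with
      | refl => exact ⟨0, by funext x; by_cases hx : x = 1 <;> simp [hx, inp]⟩
      | tail _ hs ih =>
        obtain ⟨k, rfl⟩ := ih
        exact ⟨k + 1, by rw [hs]; simp⟩
    · rintro ⟨k, rfl⟩
      induction k with
      | zero =>
        have : update (inp n) 1 0 = inp n := by funext x; by_cases hx : x = 1 <;> simp [hx, inp]
        rw [this]
      | succ k ih => exact ih.tail (by simp)
  have hZ : ∀ n k, Z 3 (update (inp n) 1 k) := by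
    intro n k x hx
    rw [update_of_ne (by omega)]
    simp [inp]; omega
  have hval : ∀ n k, g (List.Vector.ofFn fun i : Fin 2 => update (inp n) 1 k i).head
      (List.Vector.ofFn fun i : Fin 2 => update (inp n) 1 k i).tail.head = g n k := by
    intro n k
    simp [inp]
  have key : ∀ n, (∃ b, M.Reach (M.s, inp n) (M.h, b)) ↔ ∃ k, g n k = 0 := by
    intro n
    constructor
    · rintro ⟨b, hb⟩
      obtain ⟨c, ⟨c', hc1, hc2⟩, hc3, -⟩ := (hM _ _).2 hb
      obtain ⟨k, rfl⟩ := (star _ _).1 hc1
      rw [(h2 _ (hZ n k) _).1 hc2] at hc3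
      refine ⟨k, ?_⟩
      simp only [update_self, hval] at hc3
      omega
    · rintro ⟨k, hk⟩
      refine ⟨_, (hM _ _).1 ⟨_, ⟨_, (star _ _).2 ⟨k, rfl⟩, (h2 _ (hZ n k) _).2 rfl⟩, ?_, rfl⟩⟩
      simp only [update_self, hval, hk]
      simp [inp]
  have key2 : ∀ c : Nat.Partrec.Code, (∃ b, M.Reach (M.s, inp (Encodable.encode c)) (M.h, b)) ↔
      (eval c 0).Dom := by
    intro c
    rw [key]
    simp only [g, Denumerable.ofNat_encode]
    constructor
    · rintro ⟨k, hk⟩
      cases h : evaln k c 0 with
      | none => simp [h] at hk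
      | some x =>
        exact Part.dom_iff_mem.2 ⟨x, evaln_complete.2 ⟨k, h⟩⟩
    · intro h
      obtain ⟨x, hx⟩ := Part.dom_iff_mem.1 h
      obtain ⟨k, hk⟩ := evaln_complete.1 hx
      have : evaln k c 0 = some x := hk
      exact ⟨k, by simp [this]⟩
  apply ComputablePred.halting_problem 0
  obtain ⟨f, hf, hp⟩ := ComputablePred.computable_iff.1 hcomp
  refine ComputablePred.computable_iff.2 ⟨fun c => f (Encodable.encode c),
    hf.comp Computable.encode, ?_⟩
  funext c
  rw [← key2 c]
  exact congrFun hp _

end Pool.Agent.MP_94d996_lc.H23
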