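import Pool.Agent.MP_94d996_lc.H23.Game
import Pool.Agent.MP_94d996_lc.H23.Prim

set_option autoImplicit false

/-! The game that simulates a counter machine. -/

namespace Pool.Agent.MP_94d996_lc.H23

inductive St (L E Rg : Type) : Type
  | top (σ : Bool)
  | cl (σ : Bool) (fr : Option Rg) (d : Bool)
  | dl (σ : Bool) (fr : Option Rg) (d : Bool)
  | ini (σ : Bool)
  | lab (σ : Bool) (l : L) (b : Bool)
  | lp (σ : Bool) (e : E) (b : Bool)

inductive Act (E Rg : Type) : Type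
  | stay
  | go
  | delay
  | cstep (j : Option Rg)
  | chal (fr : Option Rg)
  | grow
  | decI
  | edge (e : E)
  | lstep
  | flip

instance finSt (L E Rg : Type) [Finite L] [Finite E] [Finite Rg] : Finite (St L E Rg) :=
  Finite.of_equiv _ (proxy_equiv% (St L E Rg))

instance finAct (E Rg : Type) [Finite E] [Finite Rg] : Finite (Act E Rg) :=
  Finite.of_equiv _ (proxy_equiv% (Act E Rg))

abbrev Rg (D : ℕ) : Type := Fin (D + 1) ⊕ Bool

abbrev Pos (D : ℕ) : Type := (Rg D → ℤ) × ℤ × ℤ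

def sg (σ : Bool) : ℤ := if σ then 1 else -1

variable (M : Mach) (D : ℕ)

def tgt : St M.L M.E (Rg D) → Act M.E (Rg D) → St M.L M.E (Rg D)
  | .top σ, .go => .ini σ
  | .top σ, _ => .top σ
  | .cl σ _ _, .go => .top σ
  | .cl σ fr d, .delay => .dl σ fr d
  | .cl σ fr d, _ => .cl σ fr d
  | .dl σ fr d, _ => .cl σ fr d
  | .ini σ, .chal fr => .cl σ fr true
  | .ini σ, .go => .lab σ M.s false
  | .ini σ, _ => .ini σ
  | .lab σ _ _, .chal fr => .cl σ fr true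
  | .lab σ _ b, .edge e => .lp σ e b
  | .lab σ _ _, _ => .cl (!σ) none false
  | .lp σ _ _, .chal fr => .cl σ fr true
  | .lp σ e b, .go => .lab σ (M.dst e) (!b)
  | .lp σ e b, _ => .lp σ e b

def okj (fr j : Option (Rg D)) : Prop := ∀ x, j = some x → fr ≠ some x

def Phi : St M.L M.E (Rg D) → (Act M.E (Rg D) → Prop) → Prop
  | .top _, P => P .stay ∧ P .go
  | .cl _ fr _, P => P .go ∨ ∃ j, okj D fr j ∧ P (.cstep j) ∧ P .delay
  | .dl _ fr _, P => ∃ j, okj D fr j ∧ P (.cstep j)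
  | .ini _, P => P (.chal none) ∧ (P .grow ∨ P .decI ∨ P .go)
  | .lab _ l _, P => P (.chal none) ∧ ((l = M.h ∧ P .flip) ∨
      ∃ e, M.src e = l ∧ P (.edge e) ∧ ∀ r : Fin (D + 1), M.tst e r → P (.chal (some (.inl r))))
  | .lp _ _ b, P => P (.chal none) ∧ (P .lstep ∨ (P .go ∧ P (.chal (some (.inr b)))))

def cls : St M.L M.E (Rg D) → ℕ
  | .top _ => 3
  | .cl _ _ _ => 2
  | .dl _ _ _ => 1
  | _ => 0

def game : Game (St M.L M.E (Rg D)) (Act M.E (Rg D)) where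
  tgt := tgt M D
  Φ := Phi M D
  cls := cls M D
  mono := by
    intro q P P' h hp
    cases q with
    | top => exact ⟨h _ hp.1, h _ hp.2⟩
    | cl =>
      rcases hp with hp | ⟨j, h1, h2, h3⟩
      · exact Or.inl (h _ hp)
      · exact Or.inr ⟨j, h1, h _ h2, h _ h3⟩
    | dl =>
      obtain ⟨j, h1, h2⟩ := hp
      exact ⟨j, h1, h _ h2⟩
    | ini => exact ⟨h _ hp.1, hp.2.imp (h _) (Or.imp (h _) (h _))⟩
    | lab =>
      refine ⟨h _ hp.1, hp.2.imp (fun x => ⟨x.1, h _ x.2⟩) ?_⟩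
      rintro ⟨e, h1, h2, h3⟩
      exact ⟨e, h1, h _ h2, fun r hr => h _ (h3 r hr)⟩
    | lp => exact ⟨h _ hp.1, hp.2.imp (h _) (fun x => ⟨h _ x.1, h _ x.2⟩)⟩
  up := by
    intro q P hp
    cases q with
    | top => exact ⟨_, hp.1, Or.inl rfl⟩
    | cl =>
      rcases hp with hp | ⟨j, h1, h2, h3⟩
      · exact ⟨_, hp, Or.inr (by simp [cls, tgt])⟩
      · exact ⟨_, h2, Or.inl rfl⟩
    | dl =>
      obtain ⟨j, h1, h2⟩ := hp
      exact ⟨_, h2, Or.inr (by simp [cls, tgt])⟩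
    | ini => exact ⟨_, hp.1, Or.inr (by simp [cls, tgt])⟩
    | lab => exact ⟨_, hp.1, Or.inr (by simp [cls, tgt])⟩
    | lp => exact ⟨_, hp.1, Or.inr (by simp [cls, tgt])⟩

/-- A move: register part, counter part, extra clock displacement. -/
def mv {D : ℕ} (σ : Bool) (v : Rg D → ℤ) (c x : ℤ) : Pos D := (v, c, -sg σ * (1 + x))

/-- register part of a loop step -/
def lv (e : M.E) (b : Bool) : Rg D → ℤ
  | .inl r => M.del e r
  | .inr c => if c = b then -1 else 1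

/-- register part of a cleaning step -/
def cv {D : ℕ} : Option (Rg D) → Rg D → ℤ
  | none, _ => 0
  | some j, x => if x = j then -1 else 0

def cx {D : ℕ} : Option (Rg D) → Bool → ℤ
  | none, d => -sg d
  | some _, _ => 0

def g0 : Rg D → ℤ
  | .inl _ => 0
  | .inr c => if c then 0 else 1

def g1 : Rg D → ℤ
  | .inl r => if r = 0 then 1 else 0
  | .inr _ => 0

def dat : St M.L M.E (Rg D) → Act M.E (Rg D) → Bool × (Rg D → ℤ) × (Rg D → ℤ) × ℤ × ℤ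
  | .top σ, _ => (σ, 0, 0, 0, 0)
  | .cl σ _ d, .cstep j => (σ, cv j, 0, 0, cx j d)
  | .cl σ _ _, _ => (σ, 0, 0, 0, 0)
  | .dl σ _ d, .cstep j => (σ, cv j, 0, 0, cx j d)
  | .dl σ _ _, _ => (σ, 0, 0, 0, 0)
  | .ini σ, .chal _ => (σ, 0, 0, 0, 0)
  | .ini σ, .grow => (σ, g0 D, g1 D, 0, 1)
  | .ini σ, .decI => (σ, 0, 0, -1, 1)
  | .ini σ, _ => (σ, 0, 0, 0, 1)
  | .lab σ _ _, .chal _ => (σ, 0, 0, 0, 0)
  | .lab σ _ _, .edge _ => (σ, 0, 0, 1, 1)
  | .lab σ _ _, _ => (!σ, 0, 0, 0, 0)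
  | .lp σ _ _, .chal _ => (σ, 0, 0, 0, 0)
  | .lp σ e b, .lstep => (σ, lv M D e b, 0, 0, 1)
  | .lp σ _ _, _ => (σ, 0, 0, 0, 1)

def vec (n K : ℤ) (q : St M.L M.E (Rg D)) (a : Act M.E (Rg D)) : Pos D :=
  mv (dat M D q a).1 ((dat M D q a).2.1 + n • (dat M D q a).2.2.1) (dat M D q a).2.2.2.1
    (K * (dat M D q a).2.2.2.2)

theorem vec_affine (K0 : ℤ) (q : St M.L M.E (Rg D)) (a : Act M.E (Rg D)) :
    ∃ u w : Pos D, ∀ n : ℤ, vec M D n (8 * n + K0) q a = u + n • w := by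
  refine ⟨vec M D 0 K0 q a,
    ((dat M D q a).2.2.1, 0, -sg (dat M D q a).1 * (8 * (dat M D q a).2.2.2.2)), fun n => ?_⟩
  simp only [vec, mv, Prod.smul_mk, Prod.mk_add_mk, zero_smul, add_zero, smul_eq_mul, mul_zero]
  congr 2
  ring

/-- deviation of the clock from the remaining time -/
def U {D : ℕ} (σ : Bool) (t : ℕ) (p : Pos D) : ℤ := t - sg σ * p.2.2

def mass {D : ℕ} (p : Pos D) : ℤ := ∑ x, p.1 x

variable {D}

@[simp] theorem mv_1 (p : Pos D) (σ : Bool) (v : Rg D → ℤ) (c x : ℤ) (y : Rg D) :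
    (p + mv σ v c x).1 y = p.1 y + v y := rfl

@[simp] theorem mv_21 (p : Pos D) (σ : Bool) (v : Rg D → ℤ) (c x : ℤ) :
    (p + mv σ v c x).2.1 = p.2.1 + c := rfl

theorem mv_22 (p : Pos D) (σ : Bool) (v : Rg D → ℤ) (c x : ℤ) :
    (p + mv σ v c x).2.2 = p.2.2 + -sg σ * (1 + x) := rfl

@[simp] theorem U_mv (p : Pos D) (σ : Bool) (t : ℕ) (v : Rg D → ℤ) (c x : ℤ) :
    U σ t (p + mv σ v c x) = U σ (t + 1) p + x := by
  simp only [U, mv_22]
  cases σ <;> simp [sg] <;> ring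

theorem U_not (p : Pos D) (σ : Bool) (t : ℕ) : U (!σ) t p = 2 * t - U σ t p := by
  simp only [U]
  cases σ <;> simp [sg] <;> ring

@[simp] theorem mass_mv (p : Pos D) (σ : Bool) (v : Rg D → ℤ) (c x : ℤ) :
    mass (p + mv σ v c x) = mass p + ∑ y, v y := by
  simp [mass, Finset.sum_add_distrib]

theorem sum_cv_some (j : Rg D) : ∑ y, cv (some j) y = -1 := by
  simp [cv]

theorem sum_cv_none : ∑ y, cv (none : Option (Rg D)) y = 0 := by
  simp [cv]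

section unfold

variable (n K : ℤ) (B : Set (Pos D))

/-- winning predicate of the simulation game -/
abbrev Wn (t : ℕ) (q : St M.L M.E (Rg D)) (p : Pos D) : Prop :=
  (game M D).W (vec M D n K) B t q p

variable {M n K B}

theorem W_zero {q : St M.L M.E (Rg D)} {p : Pos D} : Wn M n K B 0 q p ↔ p ∈ B := Iff.rfl

theorem W_top {t : ℕ} {σ : Bool} {p : Pos D} : Wn M n K B (t + 1) (.top σ) p ↔
    Wn M n K B t (.top σ) (p + mv σ 0 0 0) ∧ Wn M n K B t (.ini σ) (p + mv σ 0 0 0) := by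
  simp [Wn, Game.W, game, Phi, tgt, vec, dat]

theorem W_cl {t : ℕ} {σ d : Bool} {fr : Option (Rg D)} {p : Pos D} :
    Wn M n K B (t + 1) (.cl σ fr d) p ↔ Wn M n K B t (.top σ) (p + mv σ 0 0 0) ∨
      ∃ j, okj D fr j ∧ Wn M n K B t (.cl σ fr d) (p + mv σ (cv j) 0 (K * cx j d)) ∧
        Wn M n K B t (.dl σ fr d) (p + mv σ 0 0 0) := by
  simp [Wn, Game.W, game, Phi, tgt, vec, dat]

theorem W_dl {t : ℕ} {σ d : Bool} {fr : Option (Rg D)} {p : Pos D} :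
    Wn M n K B (t + 1) (.dl σ fr d) p ↔
      ∃ j, okj D fr j ∧ Wn M n K B t (.cl σ fr d) (p + mv σ (cv j) 0 (K * cx j d)) := by
  simp [Wn, Game.W, game, Phi, tgt, vec, dat]

theorem W_ini {t : ℕ} {σ : Bool} {p : Pos D} :
    Wn M n K B (t + 1) (.ini σ) p ↔ Wn M n K B t (.cl σ none true) (p + mv σ 0 0 0) ∧
      (Wn M n K B t (.ini σ) (p + mv σ (g0 D + n • g1 D) 0 K) ∨
        Wn M n K B t (.ini σ) (p + mv σ 0 (-1) K) ∨
        Wn M n K B t (.lab σ M.s false) (p + mv σ 0 0 K)) := by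
  simp [Wn, Game.W, game, Phi, tgt, vec, dat]

theorem W_lab {t : ℕ} {σ b : Bool} {l : M.L} {p : Pos D} :
    Wn M n K B (t + 1) (.lab σ l b) p ↔ Wn M n K B t (.cl σ none true) (p + mv σ 0 0 0) ∧
      ((l = M.h ∧ Wn M n K B t (.cl (!σ) none false) (p + mv (!σ) 0 0 0)) ∨
        ∃ e, M.src e = l ∧ Wn M n K B t (.lp σ e b) (p + mv σ 0 1 K) ∧
          ∀ r : Fin (D + 1), M.tst e r →
            Wn M n K B t (.cl σ (some (.inl r)) true) (p + mv σ 0 0 0)) := by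
  simp [Wn, Game.W, game, Phi, tgt, vec, dat]

theorem W_lp {t : ℕ} {σ b : Bool} {e : M.E} {p : Pos D} :
    Wn M n K B (t + 1) (.lp σ e b) p ↔ Wn M n K B t (.cl σ none true) (p + mv σ 0 0 0) ∧
      (Wn M n K B t (.lp σ e b) (p + mv σ (lv M D e b) 0 K) ∨
        (Wn M n K B t (.lab σ (M.dst e) (!b)) (p + mv σ 0 0 K) ∧
          Wn M n K B t (.cl σ (some (.inr b)) true) (p + mv σ 0 0 0))) := by
  simp [Wn, Game.W, game, Phi, tgt, vec, dat]

end unfold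

/-- The box of radius `R`. -/
def box (D : ℕ) (R : ℤ) : Set (Pos D) := {p | (∀ x, |p.1 x| ≤ R) ∧ |p.2.1| ≤ R ∧ |p.2.2| ≤ R}

theorem box_finite (R : ℤ) : (box D R).Finite := by
  have h1 : (Set.Icc (-R) R).Finite := Set.finite_Icc _ _
  have h2 : (Set.univ.pi (fun _ : Rg D => Set.Icc (-R) R)).Finite :=
    Set.Finite.pi (fun _ => h1)
  refine (h2.prod (h1.prod h1)).subset ?_
  rintro p ⟨a, b, c⟩
  exact ⟨fun x _ => abs_le.1 (a x), abs_le.1 b, abs_le.1 c⟩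

theorem exists_box {B : Set (Pos D)} (hB : B.Finite) : ∃ R : ℕ, B ⊆ box D R := by
  obtain ⟨R, hR⟩ := (hB.image (fun p : Pos D =>
    (∑ x, |p.1 x|) + |p.2.1| + |p.2.2|)).bddAbove
  refine ⟨R.toNat, fun p hp => ?_⟩
  have h1 : (∑ x, |p.1 x|) + |p.2.1| + |p.2.2| ≤ R := hR ⟨p, hp, rfl⟩
  have h2 : 0 ≤ ∑ x, |p.1 x| := Finset.sum_nonneg (fun _ _ => abs_nonneg _)
  have h3 := abs_nonneg p.2.1
  have h4 := abs_nonneg p.2.2
  refine ⟨fun x => ?_, by omega, by omega⟩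
  have h5 : |p.1 x| ≤ ∑ x, |p.1 x| :=
    Finset.single_le_sum (f := fun x => |p.1 x|) (fun _ _ => abs_nonneg _) (Finset.mem_univ x)
  omega

end Pool.Agent.MP_94d996_lc.H23
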