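import Pool.Agent.MP_94d996_lc.H23.Sim

set_option autoImplicit false

/-! If the machine does not accept, the simulation game is mortal. -/

namespace Pool.Agent.MP_94d996_lc.H23

open Relation

variable {M : Mach} {D : ℕ} {n K R : ℤ}

def Inb (R : ℤ) (σ : Bool) (t : ℕ) (p : Pos D) : Prop :=
  (∀ x, |p.1 x| ≤ R) ∧ |p.2.1| ≤ R ∧ |U σ t p| ≤ R

theorem zero_in {q : St M.L M.E (Rg D)} {p : Pos D} (h : Wn M n K (box D R) 0 q p) (σ : Bool) :
    Inb R σ 0 p := by
  obtain ⟨h1, h2, h3⟩ := W_zero.1 h
  refine ⟨h1, h2, ?_⟩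
  cases σ <;> simpa [U, sg] using h3

theorem top_in {σ : Bool} : ∀ (t : ℕ) (p : Pos D), Wn M n K (box D R) t (.top σ) p →
    Inb R σ t p := by
  intro t
  induction t with
  | zero => exact fun p h => zero_in h σ
  | succ t ih =>
    intro p h
    have := ih _ (W_top.1 h).1
    simpa only [Inb, mv_1, mv_21, U_mv, Pi.zero_apply, add_zero] using this

theorem sg_mul_sg (d : Bool) : sg d * sg d = 1 := by cases d <;> simp [sg]

theorem sg_abs (d : Bool) (x : ℤ) : |sg d * x| = |x| := by cases d <;> simp [sg]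

theorem clean_info (hK : 0 ≤ K) {σ d : Bool} {fr : Option (Rg D)} : ∀ (t : ℕ) (p : Pos D),
    (Wn M n K (box D R) t (.cl σ fr d) p ∨ Wn M n K (box D R) t (.dl σ fr d) p) →
    (∀ x, -R ≤ p.1 x) ∧ |p.2.1| ≤ R ∧ (∀ x, fr = some x → |p.1 x| ≤ R) ∧
      -R ≤ sg d * U σ t p := by
  have base : ∀ (t : ℕ) (p : Pos D), Inb R σ t p → (∀ x, -R ≤ p.1 x) ∧ |p.2.1| ≤ R ∧
      (∀ x, fr = some x → |p.1 x| ≤ R) ∧ -R ≤ sg d * U σ t p := by
    rintro t p ⟨h1, h2, h3⟩
    refine ⟨fun x => (abs_le.1 (h1 x)).1, h2, fun x _ => h1 x, ?_⟩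
    rw [← sg_abs d] at h3
    exact (abs_le.1 h3).1
  intro t
  induction t with
  | zero =>
    intro p h
    exact base _ _ (h.elim (fun h => zero_in h σ) (fun h => zero_in h σ))
  | succ t ih =>
    intro p h
    have stp : ∀ j, okj D fr j →
        Wn M n K (box D R) t (.cl σ fr d) (p + mv σ (cv j) 0 (K * cx j d)) →
        (∀ x, -R ≤ p.1 x) ∧ |p.2.1| ≤ R ∧ (∀ x, fr = some x → |p.1 x| ≤ R) ∧
          -R ≤ sg d * U σ (t + 1) p := by
      intro j hj hw
      obtain ⟨h1, h2, h3, h4⟩ := ih _ (Or.inl hw)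
      simp only [mv_1, mv_21, U_mv, add_zero] at h1 h2 h3 h4
      rcases j with _ | j
      · simp only [cv, cx, add_zero] at h1 h3 h4
        refine ⟨h1, h2, h3, ?_⟩
        have := sg_mul_sg d
        have e : sg d * (U σ (t + 1) p + K * -sg d) = sg d * U σ (t + 1) p - K * (sg d * sg d) := by
          ring
        rw [e, this] at h4
        omega
      · simp only [cv, cx, mul_zero, add_zero] at h1 h3 h4
        refine ⟨fun x => ?_, h2, fun x hx => ?_, h4⟩
        · have := h1 x
          split_ifs at this <;> omega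
        · have h5 := h3 x hx
          have h6 : x ≠ j := fun e => hj j rfl (e ▸ hx)
          simpa [h6] using h5
    rcases h with h | h
    · rcases W_cl.1 h with h | ⟨j, hj, hw, -⟩
      · have := base _ _ (top_in _ _ h)
        simpa only [mv_1, mv_21, U_mv, Pi.zero_apply, add_zero] using this
      · exact stp j hj hw
    · obtain ⟨j, hj, hw⟩ := W_dl.1 h
      exact stp j hj hw

/-- potential of the cleaning phase -/
def pot (K : ℤ) (σ d : Bool) (t : ℕ) (p : Pos D) : ℤ := K * mass p + sg d * U σ t p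

theorem pot_drift (σ d : Bool) (t : ℕ) (p : Pos D) :
    pot K σ d t (p + mv σ 0 0 0) = pot K σ d (t + 1) p := by
  simp [pot]

theorem pot_step (σ d : Bool) (t : ℕ) (p : Pos D) (j : Option (Rg D)) :
    pot K σ d t (p + mv σ (cv j) 0 (K * cx j d)) = pot K σ d (t + 1) p - K := by
  rcases j with _ | j
  · simp only [pot, mass_mv, U_mv, sum_cv_none, cx]
    have := sg_mul_sg d
    linear_combination (-K) * this
  · simp only [pot, mass_mv, U_mv, sum_cv_some, cx]
    ring

theorem pot_abs (hK : 0 ≤ K) {σ : Bool} (d : Bool) {t : ℕ} {p : Pos D} (h : Inb R σ t p) :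
    |pot K σ d t p| ≤ K * (Fintype.card (Rg D) * R) + R := by
  obtain ⟨h1, -, h3⟩ := h
  have h4 : |mass p| ≤ Fintype.card (Rg D) * R := by
    calc |mass p| ≤ ∑ x, |p.1 x| := Finset.abs_sum_le_sum_abs _ _
      _ ≤ ∑ _x : Rg D, R := Finset.sum_le_sum (fun x _ => h1 x)
      _ = Fintype.card (Rg D) * R := by simp
  calc |pot K σ d t p| ≤ |K * mass p| + |sg d * U σ t p| := abs_add_le _ _
    _ ≤ K * (Fintype.card (Rg D) * R) + R := by
      rw [abs_mul, abs_of_nonneg hK, sg_abs]
      exact add_le_add (mul_le_mul_of_nonneg_left h4 hK) h3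

theorem slow (hK : 0 ≤ K) {σ d : Bool} {fr : Option (Rg D)} : ∀ (t : ℕ) (p : Pos D),
    (Wn M n K (box D R) t (.cl σ fr d) p →
      2 * pot K σ d t p ≤ K * t + 2 * (K * (Fintype.card (Rg D) * R) + R)) ∧
    (Wn M n K (box D R) t (.dl σ fr d) p →
      2 * pot K σ d t p ≤ K * (t + 1) + 2 * (K * (Fintype.card (Rg D) * R) + R)) := by
  intro t
  induction t with
  | zero =>
    intro p
    constructor
    · intro h
      have := (abs_le.1 (pot_abs hK d (zero_in h σ))).2
      simp only [Nat.cast_zero, mul_zero]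
      linarith
    · intro h
      have := (abs_le.1 (pot_abs hK d (zero_in h σ))).2
      simp only [Nat.cast_zero, zero_add, mul_one]
      linarith
  | succ t ih =>
    intro p
    constructor
    · intro h
      rcases W_cl.1 h with h | ⟨j, -, -, hw⟩
      · have h1 := (abs_le.1 (pot_abs hK d (top_in _ _ h))).2
        rw [pot_drift] at h1
        have h2 : 0 ≤ K * ((t + 1 : ℕ) : ℤ) := mul_nonneg hK (by positivity)
        linarith
      · have h1 := (ih _).2 hw
        rw [pot_drift] at h1
        push_cast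
        linarith
    · intro h
      obtain ⟨j, -, hw⟩ := W_dl.1 h
      have h1 := (ih _).1 hw
      rw [pot_step] at h1
      push_cast
      linarith

/-- some top state is winning with horizon `t` -/
def Alive (M : Mach) (D : ℕ) (n K R : ℤ) (t : ℕ) : Prop :=
  ∃ σ p, Wn M n K (box D R) t (.top σ) p

theorem Alive.down {t s : ℕ} (h : Alive M D n K R t) (hs : s ≤ t) : Alive M D n K R s := by
  induction t, hs using Nat.le_induction with
  | base => exact h
  | succ t _ ih =>
    obtain ⟨σ, p, hp⟩ := h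
    exact ih ⟨σ, _, (W_top.1 hp).1⟩

theorem fast (hK : 0 ≤ K) {σ d : Bool} {fr : Option (Rg D)} : ∀ (t : ℕ) (p : Pos D),
    Wn M n K (box D R) t (.cl σ fr d) p → ∃ t' : ℕ, Alive M D n K R t' ∧
      K * (t - t' - 1) ≤ pot K σ d t p + (K * (Fintype.card (Rg D) * R) + R) := by
  intro t
  induction t with
  | zero =>
    intro p h
    refine ⟨0, ⟨σ, p, h⟩, ?_⟩
    have := (abs_le.1 (pot_abs hK d (zero_in h σ))).1
    simp only [Nat.cast_zero]
    linarith
  | succ t ih =>
    intro p h
    rcases W_cl.1 h with h | ⟨j, -, hw, -⟩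
    · refine ⟨t, ⟨σ, _, h⟩, ?_⟩
      have h1 := (abs_le.1 (pot_abs hK d (top_in _ _ h))).1
      rw [pot_drift] at h1
      push_cast
      linarith
    · obtain ⟨t', h1, h2⟩ := ih _ hw
      rw [pot_step] at h2
      refine ⟨t', h1, ?_⟩
      push_cast
      linarith

theorem all_dead (hK : 1 ≤ K) (hR : 0 ≤ R) {T0 : ℕ} (h0 : ¬ Alive M D n K R T0) :
    ∃ T, ∀ q p, ¬ Wn M n K (box D R) T q p := by
  set B0 : ℤ := K * (Fintype.card (Rg D) * R) + R with hB0
  have hB : 0 ≤ B0 := by positivity
  have hcl : ∀ t : ℕ, 2 * T0 + 4 * B0 + 2 ≤ t → ∀ σ fr d p,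
      ¬ Wn M n K (box D R) t (.cl σ fr d) p := by
    intro t ht σ fr d p h
    obtain ⟨t', h1, h2⟩ := fast (by omega) t p h
    have h3 := (slow (by omega) t p).1 h
    rw [← hB0] at h2 h3
    have h4 : t' < T0 := by
      by_contra hc
      exact h0 (h1.down (by omega))
    have h5 : K * (t - 2 * t' - 2) ≤ 4 * B0 := by linarith
    have h6 : (t : ℤ) - 2 * t' - 2 ≤ K * (t - 2 * t' - 2) :=
      le_mul_of_one_le_left (by omega) hK
    omega
  refine ⟨(2 * T0 + 4 * B0 + 2).toNat + 1, fun q p h => ?_⟩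
  have ht : 2 * T0 + 4 * B0 + 2 ≤ ((2 * T0 + 4 * B0 + 2).toNat : ℤ) := by omega
  cases q with
  | top σ => exact h0 (Alive.down ⟨σ, p, h⟩ (by omega))
  | cl σ fr d => exact hcl _ (by push_cast; omega) _ _ _ _ h
  | dl σ fr d =>
    obtain ⟨j, -, hw⟩ := W_dl.1 h
    exact hcl _ ht _ _ _ _ hw
  | ini σ => exact hcl _ ht _ _ _ _ (W_ini.1 h).1
  | lab σ l b => exact hcl _ ht _ _ _ _ (W_lab.1 h).1
  | lp σ e b => exact hcl _ ht _ _ _ _ (W_lp.1 h).1

section main

/-- the scale -/
def Sg (p : Pos D) : ℤ := p.1 (.inr false) + p.1 (.inr true)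

theorem Sg_eq (p : Pos D) (b : Bool) : Sg p = p.1 (.inr b) + p.1 (.inr (!b)) := by
  cases b <;> simp [Sg, add_comm]

def err (n R c : ℤ) : ℤ := R + 2 * n * R + 2 * R * (c + R)
def S0 (n R : ℤ) : ℤ := err n R R + R + 1
def Lm (n R : ℤ) : ℤ := S0 n R + 2 * R + 2
def c0 (n K R : ℤ) : ℤ := R + K * (S0 n R + 4 * R) + K * (2 * R * Lm n R)
def T1 (n K R : ℤ) : ℤ := 2 * c0 n K R + R + 1

def Inv (M : Mach) (N : ℕ) (K R : ℤ) : St M.L M.E (Rg D) → ℕ → Pos D → Prop
  | .ini σ, t, p => K * T1 N K R ≤ K * t + U σ t p ∧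
      U σ t p ≤ R + K * (p.1 (.inr false) + 2 * R - p.2.1) ∧ |p.1 (.inr true)| ≤ R ∧
      ∀ r : Fin (D + 1), |p.1 (.inl r) - inp N r * p.1 (.inr false)| ≤ R + N * R
  | .lab σ l b, t, p => K * T1 N K R ≤ K * t + U σ t p ∧ |p.1 (.inr (!b))| ≤ R ∧
      ((Sg p < S0 N R ∧ U σ t p + K * ((R - p.2.1) * Lm N R) ≤ c0 N K R) ∨
       (S0 N R ≤ Sg p ∧ ∃ a, M.Reach (M.s, inp N) (l, a) ∧
          ∀ r : Fin (D + 1), |p.1 (.inl r) - a r * Sg p| ≤ err N R p.2.1))
  | .lp σ e b, t, p => K * T1 N K R ≤ K * t + U σ t p ∧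
      ((Sg p < S0 N R ∧
          U σ t p + K * ((R - p.2.1) * Lm N R + p.1 (.inr b) + R + 1) ≤ c0 N K R) ∨
       (S0 N R ≤ Sg p ∧ ∃ a, M.Reach (M.s, inp N) (M.src e, a) ∧ (∀ r, M.tst e r → a r = 0) ∧
          ∀ r : Fin (D + 1), |p.1 (.inl r) - a r * Sg p - M.del e r * p.1 (.inr (!b))|
            ≤ err N R (p.2.1 - 1) + R))
  | _, _, _ => False

theorem sound_main (N : ℕ) (hK : 1 ≤ K) (hR : 0 ≤ R)
    (hD : ∀ e r, D + 1 ≤ r → M.del e r = 0 ∧ ¬ M.tst e r) :
    ∀ (t : ℕ) (q : St M.L M.E (Rg D)) (p : Pos D), Wn M N K (box D R) t q p →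
      Inv M N K R q t p → ∃ b, M.Reach (M.s, inp N) (M.h, b) := by
  have hN : (0 : ℤ) ≤ N := by positivity
  have hS0 : 0 ≤ S0 N R := by unfold S0 err; positivity
  have hLm : 0 ≤ Lm N R := by unfold Lm; positivity
  have hc0 : 0 ≤ c0 N K R := by unfold c0; positivity
  have hT1 : R < K * T1 N K R := by
    have h1 : R < T1 N K R := by unfold T1; omega
    have h2 : T1 N K R ≤ K * T1 N K R := le_mul_of_one_le_left (by omega) hK
    omega
  have info : ∀ {t : ℕ} {σ : Bool} {fr : Option (Rg D)} {p : Pos D},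
      Wn M N K (box D R) t (.cl σ fr true) (p + mv σ 0 0 0) →
      (∀ x, -R ≤ p.1 x) ∧ -R ≤ p.2.1 ∧ p.2.1 ≤ R ∧ (∀ x, fr = some x → |p.1 x| ≤ R) := by
    intro t σ fr p h
    obtain ⟨h1, h2, h3, -⟩ := clean_info (by omega) t _ (Or.inl h)
    simp only [mv_1, mv_21, Pi.zero_apply, add_zero] at h1 h2 h3
    exact ⟨h1, (abs_le.1 h2).1, (abs_le.1 h2).2, h3⟩
  intro t
  induction t with
  | zero =>
    intro q p hw0 hi
    exfalso
    cases q with
    | top σ => exact hi
    | cl σ fr d => exact hi
    | dl σ fr d => exact hi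
    | ini σ =>
      have h1 := (abs_le.1 (zero_in hw0 σ).2.2).2
      have h2 := hi.1
      simp only [Nat.cast_zero, mul_zero] at h2
      omega
    | lab σ l b =>
      have h1 := (abs_le.1 (zero_in hw0 σ).2.2).2
      have h2 := hi.1
      simp only [Nat.cast_zero, mul_zero] at h2
      omega
    | lp σ e b =>
      have h1 := (abs_le.1 (zero_in hw0 σ).2.2).2
      have h2 := hi.1
      simp only [Nat.cast_zero, mul_zero] at h2
      omega
  | succ t ih =>
    intro q p hw0 hi
    have hI1 : ∀ {σ : Bool} (v : Rg D → ℤ) (c : ℤ),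
        K * T1 N K R ≤ K * ((t + 1 : ℕ) : ℤ) + U σ (t + 1) p →
        K * T1 N K R ≤ K * t + U σ t (p + mv σ v c K) := by
      intro σ v c h
      rw [U_mv]
      push_cast at h
      linarith
    cases q with
    | top σ => exact hi.elim
    | cl σ fr d => exact hi.elim
    | dl σ fr d => exact hi.elim
    | ini σ =>
      obtain ⟨i1, i2, i3, i4⟩ := hi
      obtain ⟨hc, hw⟩ := W_ini.1 hw0
      obtain ⟨f1, f2, f3, -⟩ := info hc
      rcases hw with hw | hw | hw
      · refine ih _ _ hw ⟨hI1 _ _ i1, ?_, ?_, fun r => ?_⟩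
        · simp only [U_mv, mv_1, mv_21, Pi.add_apply, Pi.smul_apply, g0, g1]
          simp
          linarith
        · simpa [g0, g1] using i3
        · have := i4 r
          simp only [mv_1, Pi.add_apply, Pi.smul_apply, g0, g1]
          by_cases hr : r = 0
          · subst hr
            simp only [inp] at this ⊢
            simp at this ⊢
            convert this using 2
            ring
          · have hr' : (r : ℕ) ≠ 0 := fun e => hr (Fin.ext e)
            simp only [inp] at this ⊢
            simpa [hr, hr'] using this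
      · refine ih _ _ hw ⟨hI1 _ _ i1, ?_, ?_, fun r => ?_⟩
        · simp only [U_mv, mv_1, mv_21, Pi.zero_apply]
          linarith
        · simpa using i3
        · simpa using i4 r
      · refine ih _ _ hw ⟨hI1 _ _ i1, by simpa using i3, ?_⟩
        have e1 : Sg (p + mv σ 0 0 K) = Sg p := by simp [Sg]
        rw [e1]
        simp only [U_mv, mv_1, mv_21, Pi.zero_apply, add_zero]
        rcases lt_or_ge (Sg p) (S0 N R) with h | h
        · refine Or.inl ⟨h, ?_⟩
          have h1 : p.1 (.inr false) + 2 * R - p.2.1 + 1 ≤ S0 N R + 4 * R := by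
            have := f1 (.inr true)
            unfold Sg at h
            omega
          have h2 : K * (p.1 (.inr false) + 2 * R - p.2.1 + 1) ≤ K * (S0 N R + 4 * R) :=
            mul_le_mul_of_nonneg_left h1 (by omega)
          have h3 : (R - p.2.1) * Lm N R ≤ 2 * R * Lm N R :=
            mul_le_mul_of_nonneg_right (by omega) hLm
          have h4 : K * ((R - p.2.1) * Lm N R) ≤ K * (2 * R * Lm N R) :=
            mul_le_mul_of_nonneg_left h3 (by omega)
          unfold c0
          linarith
        · refine Or.inr ⟨h, inp N, ReflTransGen.refl, fun r => ?_⟩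
          have h1 := abs_le.1 (i4 r)
          have h2 : |(inp N r : ℤ) * p.1 (.inr true)| ≤ N * R := by
            rw [abs_mul]
            refine mul_le_mul ?_ i3 (abs_nonneg _) hN
            simp only [inp]
            split_ifs <;> simp
          have h3 := abs_le.1 h2
          have h4 : 0 ≤ 2 * R * (p.2.1 + R) := mul_nonneg (by omega) (by omega)
          unfold err Sg
          rw [abs_le]
          constructor <;> nlinarith
    | lab σ l b =>
      obtain ⟨i1, i2, i3⟩ := hi
      obtain ⟨hc, hw⟩ := W_lab.1 hw0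
      obtain ⟨f1, f2, f3, -⟩ := info hc
      rcases hw with ⟨rfl, hw⟩ | ⟨e, rfl, hw, ht⟩
      · rcases i3 with ⟨-, i3⟩ | ⟨-, a, ha, -⟩
        · exfalso
          obtain ⟨-, -, -, h4⟩ := clean_info (by omega) t _ (Or.inl hw)
          rw [U_mv, U_not] at h4
          simp only [sg] at h4
          have h5 : 0 ≤ K * ((R - p.2.1) * Lm N R) :=
            mul_nonneg (by omega) (mul_nonneg (by omega) hLm)
          have h6 : ((t + 1 : ℕ) : ℤ) ≤ c0 N K R + R := by
            simp at h4
            omega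
          have h7 : K * ((t + 1 : ℕ) : ℤ) ≤ K * (c0 N K R + R) :=
            mul_le_mul_of_nonneg_left h6 (by omega)
          have h8 : c0 N K R ≤ K * c0 N K R := le_mul_of_one_le_left hc0 hK
          have h9 : K * T1 N K R = K * (c0 N K R + R) + K * c0 N K R + K := by
            unfold T1; ring
          omega
        · exact ⟨a, ha⟩
      · refine ih _ _ hw ⟨hI1 _ _ i1, ?_⟩
        have e1 : Sg (p + mv σ 0 1 K) = Sg p := by simp [Sg]
        rw [e1]
        simp only [U_mv, mv_1, mv_21, Pi.zero_apply, add_zero]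
        rcases i3 with ⟨h, i3⟩ | ⟨h, a, ha, i3⟩
        · refine Or.inl ⟨h, ?_⟩
          have h1 : p.1 (.inr b) + R + 2 - Lm N R ≤ 0 := by
            have h2 := f1 (.inr (!b))
            have h3 := Sg_eq p b
            unfold Lm
            omega
          have h2 : K * (p.1 (.inr b) + R + 2 - Lm N R) ≤ 0 :=
            mul_nonpos_of_nonneg_of_nonpos (by omega) h1
          linarith
        · refine Or.inr ⟨h, a, ha, fun r hr => ?_, fun r => ?_⟩
          · have hr' : r < D + 1 := by
              by_contra hcon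
              exact (hD e r (by omega)).2 hr
            obtain ⟨-, -, -, h4⟩ := info (ht ⟨r, hr'⟩ hr)
            have h5 := abs_le.1 (h4 _ rfl)
            have h6 := abs_le.1 (i3 ⟨r, hr'⟩)
            have h7 : err N R p.2.1 ≤ err N R R := by
              unfold err
              have : 2 * R * (p.2.1 + R) ≤ 2 * R * (R + R) :=
                mul_le_mul_of_nonneg_left (by omega) (by omega)
              omega
            by_contra h8
            have h9 : (1 : ℤ) ≤ a r := by omega
            have h10 : Sg p ≤ (a r : ℤ) * Sg p := le_mul_of_one_le_left (by omega) h9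
            simp only at h6
            unfold S0 at h
            omega
          · have h1 := abs_le.1 (i3 r)
            have h2 : |M.del e r * p.1 (.inr (!b))| ≤ 1 * R := by
              rw [abs_mul]
              exact mul_le_mul (M.one e r) i2 (abs_nonneg _) (by omega)
            have h3 := abs_le.1 h2
            rw [add_sub_cancel_right, abs_le]
            constructor <;> omega
    | lp σ e b =>
      obtain ⟨i1, i3⟩ := hi
      obtain ⟨hc, hw⟩ := W_lp.1 hw0
      obtain ⟨f1, f2, f3, -⟩ := info hc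
      rcases hw with hw | ⟨hw, ht⟩
      · refine ih _ _ hw ⟨hI1 _ _ i1, ?_⟩
        have e1 : Sg (p + mv σ (lv M D e b) 0 K) = Sg p := by
          cases b <;> simp [Sg, lv] <;> ring
        have e2 : lv M D e b (.inr b) = -1 := by simp [lv]
        have e3 : lv M D e b (.inr (!b)) = 1 := by simp [lv]
        have e4 : ∀ r : Fin (D + 1), lv M D e b (.inl r) = M.del e r := fun r => rfl
        rw [e1]
        simp only [U_mv, mv_1, mv_21, add_zero, e2, e3, e4]
        rcases i3 with ⟨h, i3⟩ | ⟨h, a, ha, hz, i3⟩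
        · exact Or.inl ⟨h, by linarith⟩
        · refine Or.inr ⟨h, a, ha, hz, fun r => ?_⟩
          convert i3 r using 2
          ring
      · obtain ⟨-, -, -, h4⟩ := info ht
        have h5 := h4 _ rfl
        refine ih _ _ hw ⟨hI1 _ _ i1, by simpa using h5, ?_⟩
        have e1 : Sg (p + mv σ 0 0 K) = Sg p := by simp [Sg]
        rw [e1]
        simp only [U_mv, mv_1, mv_21, Pi.zero_apply, add_zero]
        rcases i3 with ⟨h, i3⟩ | ⟨h, a, ha, hz, i3⟩
        · refine Or.inl ⟨h, ?_⟩
          have h1 : 0 ≤ K * (p.1 (.inr b) + R) :=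
            mul_nonneg (by omega) (by have := f1 (.inr b); omega)
          linarith
        · have key : ∀ r : Fin (D + 1),
              |p.1 (.inl r) - (a r + M.del e r) * Sg p| ≤ err N R p.2.1 := by
            intro r
            have h1 := abs_le.1 (i3 r)
            have h2 : |M.del e r * p.1 (.inr b)| ≤ 1 * R := by
              rw [abs_mul]
              exact mul_le_mul (M.one e r) h5 (abs_nonneg _) (by omega)
            have h3 := abs_le.1 h2
            have h6 : M.del e r * Sg p
                = M.del e r * p.1 (.inr b) + M.del e r * p.1 (.inr (!b)) := by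
              rw [Sg_eq p b]; ring
            have h7 : err N R p.2.1 = err N R (p.2.1 - 1) + 2 * R := by unfold err; ring
            rw [abs_le, add_mul, h6]
            constructor <;> omega
          have nn : ∀ r : ℕ, 0 ≤ (a r : ℤ) + M.del e r := by
            intro r
            by_cases hr : r < D + 1
            · have h1 := abs_le.1 (key ⟨r, hr⟩)
              have h2 := f1 (.inl ⟨r, hr⟩)
              have h7 : err N R p.2.1 ≤ err N R R := by
                unfold err
                have : 2 * R * (p.2.1 + R) ≤ 2 * R * (R + R) :=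
                  mul_le_mul_of_nonneg_left (by omega) (by omega)
                omega
              by_contra h8
              have h9 : ((a r : ℤ) + M.del e r) * Sg p ≤ (-1) * Sg p :=
                mul_le_mul_of_nonneg_right (by omega) (by omega)
              simp only at h1
              unfold S0 at h
              omega
            · rw [(hD e r (by omega)).1]
              omega
          refine Or.inr ⟨h, fun r => ((a r : ℤ) + M.del e r).toNat,
            ha.tail ⟨e, rfl, rfl, fun r => ?_, hz⟩, fun r => ?_⟩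
          · exact Int.toNat_of_nonneg (nn r)
          · rw [Int.toNat_of_nonneg (nn r)]
            exact key r

end main

theorem mortal_of_not_acc (N : ℕ) (hK : 1 ≤ K)
    (hD : ∀ e r, D + 1 ≤ r → M.del e r = 0 ∧ ¬ M.tst e r)
    (hA : ¬ ∃ b, M.Reach (M.s, inp N) (M.h, b)) : (game M D).Mortal (vec M D N K) := by
  intro B hB
  obtain ⟨R, hR⟩ := exists_box hB
  have hR0 : (0 : ℤ) ≤ R := by positivity
  have h0 : ¬ Alive M D N K R ((T1 N K R + R).toNat + 1) := by
    rintro ⟨σ, p, hp⟩
    obtain ⟨h1, h2, h3⟩ := top_in _ _ hp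
    refine hA (sound_main N hK hR0 hD _ _ _ (W_top.1 hp).2 ⟨?_, ?_, ?_, fun r => ?_⟩)
    · rw [U_mv]
      have h4 := (abs_le.1 h3).1
      have h5 : K * (T1 N K R + R) ≤ K * ((T1 N K R + R).toNat : ℤ) :=
        mul_le_mul_of_nonneg_left (by omega) (by omega)
      have h6 : (R : ℤ) ≤ K * R := le_mul_of_one_le_left hR0 hK
      linarith
    · simp only [U_mv, mv_1, mv_21, Pi.zero_apply, add_zero]
      have h4 := (abs_le.1 h3).2
      have h5 := abs_le.1 (h1 (.inr false))
      have h6 := abs_le.1 h2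
      have h7 : 0 ≤ K * (p.1 (.inr false) + 2 * R - p.2.1) := mul_nonneg (by omega) (by omega)
      linarith
    · simpa using h1 _
    · simp only [mv_1, Pi.zero_apply, add_zero]
      have h4 : |(inp N r : ℤ) * p.1 (.inr false)| ≤ N * R := by
        rw [abs_mul]
        refine mul_le_mul ?_ (h1 _) (abs_nonneg _) (by positivity)
        simp only [inp]
        split_ifs <;> simp
      have h5 := abs_le.1 h4
      have h6 := abs_le.1 (h1 (.inl r))
      rw [abs_le]
      constructor <;> omega
  obtain ⟨T, hT⟩ := all_dead hK hR0 h0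
  exact ⟨T, fun q p h => hT q p ((game M D).W_mono _ hR _ _ _ h)⟩

end Pool.Agent.MP_94d996_lc.H23
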